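import Pool.Agent.Q126.LP.Main
import Pool.Agent.Y636.CL.JFinal

/-!
The lower bound for locally private learners: explicit and asymptotic form.
-/

set_option autoImplicit false

namespace Pool.Agent.Q126.LP

open Finset Pool.Agent.W964.Wd Pool.Agent.Y636.CL Pool.Agent.Q126.BL Filter

/-- Privacy is monotone in the parameter. -/
theorem LocallyPrivate.mono {N : ℕ} {E Ω H : Type} [Fintype Ω] {ε ε' : ℝ} (h : ε ≤ ε')
    {T : Prot N (E × Ω) H} (hT : LocallyPrivate ε T) : LocallyPrivate ε' T := by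
  intro i x x' hx τ
  refine (hT i x x' hx τ).trans ?_
  exact mul_le_mul_of_nonneg_right (Real.exp_le_exp.2 h) (Nat.cast_nonneg _)

/-- The lower bound for locally private learners with batches. -/
theorem priv_core {m k t : ℕ} {N c : ℕ} {ε : ℝ} {g : (Fin k → Bool) → Bool} (hg : Balanced c g)
    {R Ω : Type} [Fintype R] [Nonempty R] [Fintype Ω] [Nonempty Ω]
    (π : R → Prot N ((Fin t → Ex m) × Ω) (Finset (Fin m)))
    (hπ : ∀ r, LocallyPrivate ε (π r)) (hck : c + 1 ≤ k) (hc : c + 1 ≤ 2 * ε)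
    (hbm : 4 * ε ≤ (c + 1) * (m / k : ℕ)) :
    ∃ s : Fin k → Fin m, Function.Injective s ∧ Balanced c (junta g s) ∧
      privProbR (fun r => (π r).run) (junta g s)
        (fun A => A.card ≤ k ∧ 0 < adv (junta g s) A)
      ≤ 3 * (k.choose (c + 1) : ℝ) / ((m / k : ℕ) : ℝ) ^ (c + 1)
        + 2 ^ (k + 2 * t + 6) * N * (6 * ε / ((c + 1) * (m / k : ℕ))) ^ (c + 1) := by
  classical
  have hε0 : 0 < ε := by
    have : (0 : ℝ) ≤ c := Nat.cast_nonneg _
    linarith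
  have hM1 : 1 ≤ m / k := by
    rcases Nat.eq_zero_or_pos (m / k) with h | h
    · rw [h] at hbm
      simp at hbm
      linarith
    · exact h
  obtain ⟨M, hMdef⟩ : ∃ M : ℝ, M = ((m / k : ℕ) : ℝ) := ⟨_, rfl⟩
  have hMp : 0 < M := by rw [hMdef]; exact_mod_cast hM1
  have hc1 : (0 : ℝ) < (c : ℝ) + 1 := by positivity
  obtain ⟨ρ, hρ⟩ : ∃ ρ : ℝ, ρ = (c + 1) / (2 * ε) := ⟨_, rfl⟩
  have h0 : 0 < ρ := by rw [hρ]; positivity
  have h1 : ρ ≤ 1 := by
    rw [hρ, div_le_one (by positivity)]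
    exact hc
  have hM : 2 ≤ ρ * (m / k : ℕ) := by
    rw [hρ, div_mul_eq_mul_div, le_div_iff₀ (by positivity)]
    linarith
  have hval : (1 / (ρ * M)) ^ (c + 1) * Real.exp (2 * ρ * ε)
      ≤ (6 * ε / ((c + 1) * M)) ^ (c + 1) := by
    have h2 : 2 * ρ * ε = ((c + 1 : ℕ) : ℝ) * 1 := by rw [hρ]; push_cast; field_simp
    have h3 : Real.exp (2 * ρ * ε) ≤ 3 ^ (c + 1) := by
      rw [h2, Real.exp_nat_mul]
      have := Real.exp_one_lt_d9
      exact pow_le_pow_left₀ (Real.exp_pos _).le (by linarith) _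
    have h4 : 6 * ε / ((c + 1) * M) = 1 / (ρ * M) * 3 := by
      rw [hρ]
      field_simp
      norm_num
    rw [h4, mul_pow]
    exact mul_le_mul_of_nonneg_left h3 (by positivity)
  set B : ℝ := M ^ k * (3 * (k.choose (c + 1) : ℝ) / M ^ (c + 1)
        + 2 ^ (k + 2 * t + 6) * N * (6 * ε / ((c + 1) * M)) ^ (c + 1)) with hB
  have hsum : ∀ r, ∑ κ : Fin k → Fin (m / k), privProb (π r).run (junta g (pk κ))
        (fun A => A.card ≤ k ∧ 0 < adv (junta g (pk κ)) A) ≤ B := by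
    intro r
    have h2 := sum_privProb_le hg (π r) (hπ r) h0 h1 hε0.le hM
    rw [← hMdef] at h2
    refine h2.trans ?_
    rw [hB, mul_add]
    refine add_le_add ?_ ?_
    · have h3 : Real.exp 1 ≤ 3 := by
        have := Real.exp_one_lt_d9
        linarith
      have h4 : M ^ k = M ^ (k - (c + 1)) * M ^ (c + 1) := by
        rw [← pow_add]; congr 1; omega
      have h5 : M ^ k * (3 * (k.choose (c + 1) : ℝ) / M ^ (c + 1))
          = 3 * ((k.choose (c + 1) : ℝ) * M ^ (k - (c + 1))) := by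
        rw [h4]; field_simp
      rw [h5]
      exact mul_le_mul_of_nonneg_right h3 (by positivity)
    · have h5 : (N : ℝ) * ((2 ^ t) ^ 2 * 2 ^ k * (2 * M ^ k * (1 / (ρ * M)) ^ (c + 1)
            * Real.exp (2 * ρ * ε)))
          ≤ (2 ^ t) ^ 2 * 2 ^ k * 2 * N * M ^ k * (6 * ε / ((c + 1) * M)) ^ (c + 1) := by
        calc (N : ℝ) * ((2 ^ t) ^ 2 * 2 ^ k * (2 * M ^ k * (1 / (ρ * M)) ^ (c + 1)
            * Real.exp (2 * ρ * ε)))
            = (2 ^ t) ^ 2 * 2 ^ k * 2 * N * M ^ k *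
              ((1 / (ρ * M)) ^ (c + 1) * Real.exp (2 * ρ * ε)) := by ring
          _ ≤ _ := mul_le_mul_of_nonneg_left hval (by positivity)
      have h6 : 0 ≤ (2 ^ t) ^ 2 * 2 ^ k * N * M ^ k *
          (6 * ε / ((c + 1) * M)) ^ (c + 1) := by positivity
      calc Real.exp 2 * (3 * ((N : ℝ) * ((2 ^ t) ^ 2 * 2 ^ k * (2 * M ^ k *
            (1 / (ρ * M)) ^ (c + 1) * Real.exp (2 * ρ * ε)))))
          ≤ Real.exp 2 * (3 * ((2 ^ t) ^ 2 * 2 ^ k * 2 * N * M ^ k *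
            (6 * ε / ((c + 1) * M)) ^ (c + 1))) :=
            mul_le_mul_of_nonneg_left (mul_le_mul_of_nonneg_left h5 (by norm_num))
              (Real.exp_pos _).le
        _ = Real.exp 2 * 6 * ((2 ^ t) ^ 2 * 2 ^ k * N * M ^ k *
            (6 * ε / ((c + 1) * M)) ^ (c + 1)) := by ring
        _ ≤ 64 * ((2 ^ t) ^ 2 * 2 ^ k * N * M ^ k *
            (6 * ε / ((c + 1) * M)) ^ (c + 1)) := by
          refine mul_le_mul_of_nonneg_right ?_ h6
          linarith [exp_two_le]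
        _ = _ := by
          have e : (2 : ℝ) ^ (k + 2 * t + 6) = 2 ^ k * (2 ^ t) ^ 2 * 2 ^ 6 := by
            rw [pow_add, pow_add, pow_mul']
          rw [e]
          ring
  have hsumR : ∑ κ : Fin k → Fin (m / k), privProbR (fun r => (π r).run) (junta g (pk κ))
        (fun A => A.card ≤ k ∧ 0 < adv (junta g (pk κ)) A) ≤ B := by
    unfold privProbR
    rw [← sum_div, sum_comm, div_le_iff₀ (by exact_mod_cast Fintype.card_pos)]
    refine (sum_le_sum fun r _ => hsum r).trans (le_of_eq ?_)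
    rw [sum_const, card_univ, nsmul_eq_mul]
    ring
  have hne : Nonempty (Fin (m / k)) := ⟨⟨0, hM1⟩⟩
  obtain ⟨κ, _, hκ⟩ : ∃ κ ∈ (univ : Finset (Fin k → Fin (m / k))),
      privProbR (fun r => (π r).run) (junta g (pk κ))
        (fun A => A.card ≤ k ∧ 0 < adv (junta g (pk κ)) A) ≤ B / M ^ k := by
    refine exists_le_of_sum_le univ_nonempty (hsumR.trans (le_of_eq ?_))
    rw [sum_const, card_univ, Fintype.card_fun, Fintype.card_fin, Fintype.card_fin, nsmul_eq_mul]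
    push_cast
    rw [← hMdef]
    field_simp
  refine ⟨pk κ, pk_inj κ, tgt_bal hg (pk_inj κ), ?_⟩
  rw [← hMdef]
  refine hκ.trans (le_of_eq ?_)
  rw [hB]
  field_simp

/-- The asymptotic lower bound. -/
theorem priv_asym (β γ : ℝ) (hβ : 0 < β) (hβ1 : β ≤ 1) (hγ : 0 < γ) (hγ1 : γ ≤ 1) :
    ∃ m₀ : ℕ, ∀ m : ℕ, m₀ ≤ m → ∀ (k c t N : ℕ) (ε : ℝ), 1 ≤ k → (k : ℝ) ≤ (m : ℝ) ^ (1 - β) →
      γ * k ≤ c → ε ≤ (m : ℝ) ^ (1 - β) →
      (t : ℝ) ≤ β * γ / 4 * k * Real.logb 2 m → (N : ℝ) ≤ (m : ℝ) ^ (β * γ * k / 8) →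
      ∀ g : (Fin k → Bool) → Bool, Balanced c g →
      ∀ (R Ω : Type) [Fintype R] [Nonempty R] [Fintype Ω] [Nonempty Ω]
        (π : R → Prot N ((Fin t → Ex m) × Ω) (Finset (Fin m))),
        (∀ r, LocallyPrivate ε (π r)) →
        ∃ s : Fin k → Fin m, Function.Injective s ∧ Balanced c (junta g s) ∧
          privProbR (fun r => (π r).run) (junta g s)
            (fun A => A.card ≤ k ∧ 0 < adv (junta g s) A) ≤ (m : ℝ) ^ (-(β * γ * k / 8)) := by
  -- the constants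
  obtain ⟨D, hD⟩ : ∃ D : ℝ, D = 16 / γ * 128 ^ (1 / γ) := ⟨_, rfl⟩
  have h16 : 16 ≤ 16 / γ := by rw [le_div_iff₀ hγ]; linarith
  have h128 : (1 : ℝ) ≤ 128 ^ (1 / γ) := Real.one_le_rpow (by norm_num) (by positivity)
  have hD16 : 16 ≤ D := by
    rw [hD]
    calc (16 : ℝ) ≤ 16 / γ := h16
      _ = 16 / γ * 1 := (mul_one _).symm
      _ ≤ _ := mul_le_mul_of_nonneg_left h128 (by linarith)
  have hDγ : 16 / γ ≤ D := by
    rw [hD]
    calc 16 / γ = 16 / γ * 1 := (mul_one _).symm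
      _ ≤ _ := mul_le_mul_of_nonneg_left h128 (by linarith)
  have hD0 : 0 < D := by linarith
  have ht : Tendsto (fun m : ℕ => (m : ℝ) ^ (β * γ / 4)) atTop atTop :=
    (tendsto_rpow_atTop (by positivity)).comp tendsto_natCast_atTop_atTop
  obtain ⟨m₁, hm₁⟩ := eventually_atTop.1 (ht.eventually_ge_atTop (90 * D))
  refine ⟨max m₁ 2, ?_⟩
  intro m hm k c t N ε hk hkm hc hb htm hN g hg R Ω _ _ _ _ π hπ
  have hmm : m₁ ≤ m := le_trans (le_max_left _ _) hm
  have hm2 : 2 ≤ m := le_trans (le_max_right _ _) hm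
  have hmR : (2 : ℝ) ≤ m := by exact_mod_cast hm2
  have hmp : (0 : ℝ) < m := by linarith
  have hm1 : (1 : ℝ) ≤ m := by linarith
  have hkR : (1 : ℝ) ≤ k := by exact_mod_cast hk
  have hck := lt_of_bal hg
  have hbig : 90 * D ≤ (m : ℝ) ^ (β * γ / 4) := hm₁ m hmm
  -- powers of `m`
  have hγβ : β * γ / 4 ≤ β / 4 := by
    have := mul_le_mul_of_nonneg_left hγ1 hβ.le
    linarith
  have hbig2 : 90 * D ≤ (m : ℝ) ^ (β / 4) :=
    hbig.trans (Real.rpow_le_rpow_of_exponent_le hm1 hγβ)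
  have hq : (m : ℝ) ^ (β / 4) ≤ (m : ℝ) ^ β := Real.rpow_le_rpow_of_exponent_le hm1 (by linarith)
  have hmβ : (m : ℝ) = (m : ℝ) ^ (1 - β) * (m : ℝ) ^ β := by
    rw [← Real.rpow_add hmp]
    have : 1 - β + β = 1 := by ring
    rw [this, Real.rpow_one]
  obtain ⟨P, hP⟩ : ∃ P : ℝ, P = (m : ℝ) ^ (1 - β) := ⟨_, rfl⟩
  obtain ⟨Q, hQ⟩ : ∃ Q : ℝ, Q = (m : ℝ) ^ β := ⟨_, rfl⟩
  rw [← hP] at hkm hb hmβ
  rw [← hQ] at hq hmβ
  have hP1 : 1 ≤ P := by rw [hP]; exact Real.one_le_rpow hm1 (by linarith)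
  have hQ90 : 90 * D ≤ Q := hbig2.trans hq
  have hQ0 : 0 < Q := by linarith
  -- the size of the blocks
  have hM : (m : ℝ) / (2 * k) ≤ ((m / k : ℕ) : ℝ) := by
    have h1 : (m : ℝ) / k - 1 ≤ ((m / k : ℕ) : ℝ) := by
      have h2 := Nat.lt_floor_add_one ((m : ℝ) / k)
      rw [Nat.floor_div_eq_div] at h2
      linarith
    have h3 : (2 : ℝ) ≤ m / k := by
      rw [le_div_iff₀ (by linarith)]
      rw [hmβ]
      have h5 : (2 : ℝ) ≤ Q := by linarith
      have h6 := mul_le_mul hkm h5 (by norm_num) (by linarith : (0 : ℝ) ≤ P)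
      linarith
    have h4 : (m : ℝ) / (2 * k) = m / k / 2 := by rw [div_div]; ring
    rw [h4]
    linarith
  obtain ⟨M, hMd⟩ : ∃ M : ℝ, M = ((m / k : ℕ) : ℝ) := ⟨_, rfl⟩
  rw [← hMd] at hM
  have hkp : (0 : ℝ) < k := by linarith
  have hMp : 0 < M := lt_of_lt_of_le (by positivity) hM
  have hcR : γ * k ≤ ((c + 1 : ℕ) : ℝ) := by push_cast; linarith
  have hcM : γ * m / 2 ≤ ((c + 1 : ℕ) : ℝ) * M := by
    have h1 : γ * k * (m / (2 * k)) ≤ ((c + 1 : ℕ) : ℝ) * M :=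
      mul_le_mul hcR hM (by positivity) (by positivity)
    have h2 : γ * k * (m / (2 * k)) = γ * m / 2 := by field_simp
    linarith
  -- enlarge the parameter
  obtain ⟨b', hb'⟩ : ∃ b' : ℝ, b' = max ε (c + 1) := ⟨_, rfl⟩
  have hcP : (c : ℝ) + 1 ≤ P := by
    have : ((c + 1 : ℕ) : ℝ) ≤ k := by exact_mod_cast hck
    push_cast at this
    linarith
  have hb'R : b' ≤ P := by
    rw [hb']
    exact max_le hb hcP
  have hb'c : (c : ℝ) + 1 ≤ b' := by rw [hb']; exact le_max_right _ _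
  have hb'0 : 0 ≤ b' := by
    have : (0 : ℝ) ≤ c := Nat.cast_nonneg _
    linarith
  have hbm : 4 * b' ≤ (c + 1) * (m / k : ℕ) := by
    have h1 : 4 * b' ≤ ((c + 1 : ℕ) : ℝ) * M := by
      refine le_trans ?_ hcM
      rw [hmβ]
      have h2 : 16 / γ ≤ Q := by linarith
      rw [div_le_iff₀ hγ] at h2
      have h3 := mul_le_mul_of_nonneg_left h2 (by linarith : (0 : ℝ) ≤ P)
      linarith
    rw [hMd] at h1
    push_cast at h1
    exact h1
  obtain ⟨s, hs1, hs2, hs3⟩ := priv_core hg π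
    (fun r => (hπ r).mono (by rw [hb']; exact le_max_left ε _)) hck
    (by linarith) hbm
  refine ⟨s, hs1, hs2, hs3.trans ?_⟩
  rw [← hMd]
  -- the bases are small
  obtain ⟨y, hy⟩ : ∃ y : ℝ, y = (m : ℝ) ^ (-(3 * β / 4)) := ⟨_, rfl⟩
  have hy0 : 0 < y := by rw [hy]; positivity
  have hDQ : D / Q ≤ y / 90 := by
    rw [div_le_div_iff₀ hQ0 (by norm_num)]
    have h1 : (m : ℝ) ^ (β / 4) = y * Q := by
      rw [hy, hQ, ← Real.rpow_add hmp]
      congr 1; ring
    rw [h1] at hbig2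
    linarith
  obtain ⟨z, hz⟩ : ∃ z : ℝ, z = (m : ℝ) ^ (β * γ * k / 8) := ⟨_, rfl⟩
  have hz0 : 0 < z := by rw [hz]; positivity
  have hz1 : 1 ≤ z := by rw [hz]; exact Real.one_le_rpow hm1 (by positivity)
  have hzi : (m : ℝ) ^ (-(β * γ * k / 8)) = z⁻¹ := by rw [hz, Real.rpow_neg hmp.le]
  have hz6 : (m : ℝ) ^ (-(3 * (β * γ * k / 4))) = z⁻¹ ^ 6 := by
    rw [← hzi, ← Real.rpow_natCast, ← Real.rpow_mul hmp.le]
    congr 1; push_cast; ring
  have hpow : ∀ x : ℝ, 0 ≤ x → x ≤ y / 90 → x ^ (c + 1) ≤ z⁻¹ ^ 6 / 90 := by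
    intro x hx0 hx
    rw [← hz6]
    have h1 : x ^ (c + 1) ≤ (y / 90) ^ (c + 1) := pow_le_pow_left₀ hx0 hx _
    have h2 : (y / 90) ^ (c + 1) = y ^ (c + 1) * (1 / 90) ^ (c + 1) := by
      rw [← mul_pow]; congr 1; ring
    have h3 : ((1 : ℝ) / 90) ^ (c + 1) ≤ 1 / 90 :=
      pow_le_of_le_one (by norm_num) (by norm_num) (by omega)
    have h4 : y ^ (c + 1) ≤ (m : ℝ) ^ (-(3 * (β * γ * k / 4))) := by
      rw [hy, ← Real.rpow_natCast, ← Real.rpow_mul hmp.le]
      refine Real.rpow_le_rpow_of_exponent_le hm1 ?_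
      have h5 := mul_le_mul_of_nonneg_left hcR (by positivity : (0 : ℝ) ≤ 3 * β / 4)
      linarith
    rw [h2] at h1
    calc x ^ (c + 1) ≤ y ^ (c + 1) * (1 / 90) ^ (c + 1) := h1
      _ ≤ (m : ℝ) ^ (-(3 * (β * γ * k / 4))) * (1 / 90) :=
        mul_le_mul h4 h3 (by positivity) (by positivity)
      _ = _ := by ring
  have hpk : ∀ a : ℝ, 1 ≤ a → a ^ k ≤ (a ^ (1 / γ)) ^ (c + 1) := by
    intro a ha
    rw [← Real.rpow_natCast (a ^ (1 / γ)) (c + 1), ← Real.rpow_mul (by linarith),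
      ← Real.rpow_natCast a k]
    refine Real.rpow_le_rpow_of_exponent_le ha ?_
    rw [one_div, inv_mul_eq_div, le_div_iff₀ hγ]
    linarith
  -- the factor `2 ^ (2 t)`
  have h4t : (2 : ℝ) ^ (2 * t) ≤ z ^ 4 := by
    have h1 : (2 : ℝ) ^ t ≤ z ^ 2 := by
      have h2 : (2 : ℝ) ^ t = (2 : ℝ) ^ (t : ℝ) := (Real.rpow_natCast 2 t).symm
      have h3 : z ^ 2 = (2 : ℝ) ^ (β * γ / 4 * k * Real.logb 2 m) := by
        rw [mul_comm (β * γ / 4 * k) (Real.logb 2 m), Real.rpow_mul (by norm_num),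
          Real.rpow_logb (by norm_num) (by norm_num) hmp, hz, ← Real.rpow_natCast,
          ← Real.rpow_mul hmp.le]
        congr 1; push_cast; ring
      rw [h2, h3]
      exact Real.rpow_le_rpow_of_exponent_le (by norm_num) htm
    calc (2 : ℝ) ^ (2 * t) = (2 ^ t) ^ 2 := by rw [pow_mul']
      _ ≤ (z ^ 2) ^ 2 := pow_le_pow_left₀ (by positivity) h1 2
      _ = z ^ 4 := by ring
  have hterm2 : 2 ^ (k + 2 * t + 6) * N * (6 * b' / ((c + 1) * M)) ^ (c + 1)
      ≤ z⁻¹ / 90 := by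
    have hcM' : γ * m / 2 ≤ ((c : ℝ) + 1) * M := by push_cast at hcM; exact hcM
    have hx : 6 * b' / ((c + 1) * M) ≤ 12 / γ / Q := by
      calc 6 * b' / ((c + 1) * M) ≤ 6 * P / (γ * m / 2) :=
            div_le_div₀ (by positivity) (by linarith) (by positivity) hcM'
        _ = 12 / γ / Q := by
            rw [hmβ]
            field_simp
            norm_num
    obtain ⟨x, hxd⟩ : ∃ x : ℝ, x = 6 * b' / ((c + 1) * M) := ⟨_, rfl⟩
    rw [← hxd] at hx ⊢
    have hx0 : 0 ≤ x := by rw [hxd]; positivity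
    have h1 : (128 ^ (1 / γ) * x) ^ (c + 1) ≤ z⁻¹ ^ 6 / 90 := by
      refine hpow _ (by positivity) (le_trans ?_ hDQ)
      calc 128 ^ (1 / γ) * x ≤ 128 ^ (1 / γ) * (12 / γ / Q) :=
            mul_le_mul_of_nonneg_left hx (by linarith)
        _ = (12 / γ * 128 ^ (1 / γ)) / Q := by ring
        _ ≤ D / Q := by
            refine div_le_div_of_nonneg_right ?_ hQ0.le
            rw [hD]
            refine mul_le_mul_of_nonneg_right ?_ (by linarith)
            exact div_le_div_of_nonneg_right (by norm_num) hγ.le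
    have h2 : (2 : ℝ) ^ (k + 2 * t + 6) ≤ (128 : ℝ) ^ k * 2 ^ (2 * t) := by
      have e : (2 : ℝ) ^ (k + 2 * t + 6) = 2 ^ (k + 6) * 2 ^ (2 * t) := by
        rw [← pow_add]; congr 1; ring
      rw [e]
      refine mul_le_mul_of_nonneg_right ?_ (by positivity)
      have e2 : (128 : ℝ) ^ k = 2 ^ (7 * k) := by rw [pow_mul]; norm_num
      rw [e2]
      exact pow_le_pow_right₀ (by norm_num) (by omega)
    have h3 := hpk 128 (by norm_num)
    have hN0 : (0 : ℝ) ≤ N := Nat.cast_nonneg _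
    rw [← hz] at hN
    calc 2 ^ (k + 2 * t + 6) * N * x ^ (c + 1)
        ≤ ((128 ^ (1 / γ)) ^ (c + 1) * z ^ 4) * z * x ^ (c + 1) := by
          refine mul_le_mul_of_nonneg_right ?_ (by positivity)
          refine mul_le_mul ?_ hN hN0 (by positivity)
          refine h2.trans ?_
          exact mul_le_mul h3 h4t (by positivity) (by positivity)
      _ = z ^ 5 * (128 ^ (1 / γ) * x) ^ (c + 1) := by rw [mul_pow]; ring
      _ ≤ z ^ 5 * (z⁻¹ ^ 6 / 90) := mul_le_mul_of_nonneg_left h1 (by positivity)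
      _ = z⁻¹ / 90 := by field_simp
  have hterm1 : 3 * (k.choose (c + 1) : ℝ) / M ^ (c + 1) ≤ 3 * (z⁻¹ ^ 6 / 90) := by
    have h1 : (k.choose (c + 1) : ℝ) ≤ 2 ^ k := by
      have h2 : k.choose (c + 1) ≤ 2 ^ k := by
        rw [← Nat.sum_range_choose k]
        exact Finset.single_le_sum (f := fun i => k.choose i) (fun _ _ => Nat.zero_le _)
          (Finset.mem_range.2 (by omega))
      exact_mod_cast h2
    have h2 : (2 : ℝ) ^ k ≤ (128 ^ (1 / γ)) ^ (c + 1) :=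
      (pow_le_pow_left₀ (by norm_num) (by norm_num) k).trans (hpk 128 (by norm_num))
    have h3 : 3 * (k.choose (c + 1) : ℝ) / M ^ (c + 1)
        ≤ 3 * (128 ^ (1 / γ) / M) ^ (c + 1) := by
      rw [div_pow, mul_div_assoc]
      refine mul_le_mul_of_nonneg_left ?_ (by norm_num)
      exact div_le_div_of_nonneg_right (h1.trans h2) (by positivity)
    refine h3.trans (mul_le_mul_of_nonneg_left ?_ (by norm_num))
    refine hpow _ (by positivity) (le_trans ?_ hDQ)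
    calc 128 ^ (1 / γ) / M ≤ 128 ^ (1 / γ) / (m / (2 * k)) :=
          div_le_div_of_nonneg_left (by positivity) (by positivity) hM
      _ = 128 ^ (1 / γ) * 2 * (k / m) := by field_simp
      _ ≤ 128 ^ (1 / γ) * 2 * (1 / Q) := by
          refine mul_le_mul_of_nonneg_left ?_ (by positivity)
          rw [div_le_div_iff₀ hmp hQ0, hmβ]
          have h5 := mul_le_mul_of_nonneg_right hkm hQ0.le
          linarith
      _ ≤ D / Q := by
          rw [mul_one_div]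
          refine div_le_div_of_nonneg_right ?_ hQ0.le
          rw [hD]
          have h5 := mul_le_mul_of_nonneg_right h16 (by linarith : (0 : ℝ) ≤ 128 ^ (1 / γ))
          linarith
  -- add up
  rw [hzi]
  have hzi0 : 0 < z⁻¹ := by positivity
  have hzi1 : z⁻¹ ≤ 1 := inv_le_one_of_one_le₀ hz1
  have h2 : z⁻¹ ^ 6 ≤ z⁻¹ := pow_le_of_le_one hzi0.le hzi1 (by norm_num)
  linarith

end Pool.Agent.Q126.LP
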