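import Pool.Agent.Q126.LP.DCore

/-!
Locally private learners of DNF formulas: asymptotic lower bound, upper bounds.
-/

set_option autoImplicit false

namespace Pool.Agent.Q126.LP

open Finset Pool.Agent.W964.Wd Pool.Agent.Y636.CL Pool.Agent.Q126.BL Pool.Agent.Q126.BD

/-- The three terms of the bound are small. -/
theorem dasym_terms {n s j k τ t N : ℕ} {β a δ ℓ lam y : ℝ} (hβ : 0 < β) (hβ1 : β ≤ 1 / 2)
    (ha : 0 < a) (ha1 : a ≤ 1) (hδ : δ = β * a / 256)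
    (hn : (n : ℝ) = 2 ^ lam) (hs : (s : ℝ) = 2 ^ ℓ)
    (hlam : 64 / (β * a) ≤ lam) (hℓ : 512 / (β * a ^ 2) ≤ ℓ) (hℓn : ℓ ≤ (n : ℝ) ^ (1 / 2 : ℝ))
    (hj1 : (j : ℝ) ≤ (1 - a / 2) * ℓ) (hj2 : (1 - a / 2) * ℓ - 1 ≤ j)
    (hk1 : (k : ℝ) ≤ a / 2 * ℓ) (hk2 : a / 2 * ℓ - 1 ≤ k)
    (hτ1 : 8 / a * lam ≤ τ) (hτ2 : τ ≤ 8 / a * lam + 1)
    (hy0 : 0 ≤ y) (hy : y ≤ 16 * (n : ℝ) ^ (-β)) (ht : (t : ℝ) ≤ (s : ℝ) ^ (1 - a))
    (hN : (N : ℝ) ≤ (n : ℝ) ^ (δ * ℓ)) (hk : 1 ≤ k) (hjk : j + k ≤ n) :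
    2 ^ j / (((n : ℝ) ^ (-(δ * ℓ))) ^ 2 * ((n - j).choose k : ℝ))
        + 96 * 4 ^ (j + τ) * N * y ^ k
        + N * ((t.choose (τ + 1) : ℝ) / 2 ^ (j * τ)) ≤ (n : ℝ) ^ (-(δ * ℓ)) := by
  have hβa : 0 < β * a := by positivity
  have h2 : (0 : ℝ) < 2 := by norm_num
  have hβa1 : β * a ≤ 1 / 2 := by
    have := mul_le_mul hβ1 ha1 ha.le (by norm_num)
    linarith
  -- consequences for `lam` and `ℓ`
  have hl1 : 64 ≤ β * a * lam := by rwa [div_le_iff₀' hβa] at hlam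
  have hlam128 : 128 ≤ lam := by
    refine le_trans ?_ hlam
    rw [le_div_iff₀ hβa]; linarith
  have hlam0 : 0 < lam := by linarith
  have hal : 64 ≤ a * lam := by
    have h3 : β * (a * lam) ≤ 1 * (a * lam) :=
      mul_le_mul_of_nonneg_right (by linarith) (by positivity)
    linarith
  have hbl : 64 ≤ β * lam := by
    have h3 : a * (β * lam) ≤ 1 * (β * lam) :=
      mul_le_mul_of_nonneg_right ha1 (by positivity)
    linarith
  have hl2 : 512 ≤ β * a ^ 2 * ℓ := by rwa [div_le_iff₀' (by positivity)] at hℓ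
  have hℓ0 : 0 < ℓ := lt_of_lt_of_le (by positivity) hℓ
  have haℓ : 1024 ≤ a * ℓ := by
    have h3 : β * a * (a * ℓ) ≤ 1 / 2 * (a * ℓ) :=
      mul_le_mul_of_nonneg_right hβa1 (by positivity)
    have h4 : β * a ^ 2 * ℓ = β * a * (a * ℓ) := by ring
    linarith
  have hℓ1024 : 1024 ≤ ℓ := by
    have h3 : a * ℓ ≤ 1 * ℓ := mul_le_mul_of_nonneg_right ha1 hℓ0.le
    linarith
  have hkℓ : a * ℓ / 4 ≤ k := by linarith
  -- powers of `n`
  have hpn : ∀ x : ℝ, (n : ℝ) ^ x = 2 ^ (lam * x) := fun x => by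
    rw [hn, ← Real.rpow_mul h2.le]
  have hnR : (0 : ℝ) < n := by rw [hn]; positivity
  rw [hpn] at hy hN hℓn ⊢
  have hps : (s : ℝ) ^ (1 - a) = 2 ^ (ℓ * (1 - a)) := by rw [hs, ← Real.rpow_mul h2.le]
  rw [hps] at ht
  have mono : ∀ {x y : ℝ}, x ≤ y → (2 : ℝ) ^ x ≤ 2 ^ y := fun h =>
    Real.rpow_le_rpow_of_exponent_le (by norm_num) h
  -- `n - j ≥ n / 2`
  have hjn : (j : ℝ) ≤ n / 2 := by
    have h3 : (2 : ℝ) ^ (lam * (1 / 2)) ≤ 2 ^ (lam - 1) := mono (by linarith)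
    have h4 : (2 : ℝ) ^ (lam - 1) = n / 2 := by
      rw [Real.rpow_sub h2, Real.rpow_one, ← hn]
    have h5 : (1 - a / 2) * ℓ ≤ 1 * ℓ := mul_le_mul_of_nonneg_right (by linarith) hℓ0.le
    linarith
  have hnj : (n : ℝ) / 2 ≤ ((n - j : ℕ) : ℝ) := by
    rw [Nat.cast_sub (by omega)]; linarith
  have hnj0 : (0 : ℝ) < ((n - j : ℕ) : ℝ) := by linarith
  have hk0 : (0 : ℝ) < k := by exact_mod_cast hk
  -- the result as a power of two
  obtain ⟨E, hE⟩ : ∃ E : ℝ, E = δ * (lam * ℓ) := ⟨_, rfl⟩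
  have hE1 : lam * (δ * ℓ) = E := by rw [hE]; ring
  have hE2 : lam * -(δ * ℓ) = -E := by rw [hE]; ring
  rw [hE1] at hN
  rw [hE2]
  have hLL : 0 < lam * ℓ := by positivity
  have hE3 : E = β * a / 256 * (lam * ℓ) := by rw [hE, hδ]
  have hquarter : (2 : ℝ) ^ (-E - 2) = 2 ^ (-E) / 4 := by
    rw [Real.rpow_sub h2]; norm_num
  -- first term
  have hT1 : 2 ^ j / (((2 : ℝ) ^ (-E)) ^ 2 * ((n - j).choose k : ℝ)) ≤ 2 ^ (-E - 2) := by
    have hch : (2 : ℝ) ^ (a * (lam * ℓ) / 16) ≤ ((n - j).choose k : ℝ) := by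
      have h3 := pow_le_choose_real k (n - j) (by omega) hk
      refine le_trans ?_ h3
      have h4 : (2 : ℝ) ^ (lam / 4) ≤ ((n - j : ℕ) : ℝ) / k := by
        rw [le_div_iff₀ hk0]
        have h5 : (k : ℝ) ≤ 2 ^ (lam * (1 / 2)) := by
          have : a / 2 * ℓ ≤ 1 * ℓ := mul_le_mul_of_nonneg_right (by linarith) hℓ0.le
          linarith
        calc (2 : ℝ) ^ (lam / 4) * k ≤ 2 ^ (lam / 4) * 2 ^ (lam * (1 / 2)) :=
              mul_le_mul_of_nonneg_left h5 (by positivity)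
          _ = 2 ^ (lam / 4 + lam * (1 / 2)) := by rw [Real.rpow_add h2]
          _ ≤ 2 ^ (lam - 1) := mono (by linarith)
          _ = n / 2 := by rw [Real.rpow_sub h2, Real.rpow_one, ← hn]
          _ ≤ _ := hnj
      calc (2 : ℝ) ^ (a * (lam * ℓ) / 16) ≤ 2 ^ (lam / 4 * k) := by
            refine mono ?_
            have := mul_le_mul_of_nonneg_left hkℓ (by positivity : 0 ≤ lam / 4)
            linarith
        _ = (2 ^ (lam / 4)) ^ k := by rw [Real.rpow_mul h2.le, Real.rpow_natCast]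
        _ ≤ _ := pow_le_pow_left₀ (by positivity) h4 k
    have hsq : ((2 : ℝ) ^ (-E)) ^ 2 = 2 ^ (-(2 * E)) := by
      rw [← Real.rpow_natCast, ← Real.rpow_mul h2.le]; congr 1; push_cast; ring
    have hj3 : (2 : ℝ) ^ j ≤ 2 ^ ℓ := by
      rw [← Real.rpow_natCast]
      refine mono (hj1.trans ?_)
      have h5 : (1 - a / 2) * ℓ ≤ 1 * ℓ := mul_le_mul_of_nonneg_right (by linarith) hℓ0.le
      linarith
    rw [hsq]
    calc (2 : ℝ) ^ j / (2 ^ (-(2 * E)) * ((n - j).choose k : ℝ))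
        ≤ 2 ^ ℓ / (2 ^ (-(2 * E)) * 2 ^ (a * (lam * ℓ) / 16)) := by
          refine div_le_div₀ (by positivity) hj3 (by positivity) ?_
          exact mul_le_mul_of_nonneg_left hch (by positivity)
      _ = 2 ^ (ℓ - (-(2 * E) + a * (lam * ℓ) / 16)) := by
          rw [← Real.rpow_add h2, ← Real.rpow_sub h2]
      _ ≤ 2 ^ (-E - 2) := by
          refine mono ?_
          have h5 : β * a / 256 * (lam * ℓ) ≤ (1 / 2) * a / 256 * (lam * ℓ) :=
            mul_le_mul_of_nonneg_right (div_le_div_of_nonneg_right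
              (mul_le_mul_of_nonneg_right hβ1 ha.le) (by norm_num)) hLL.le
          have h6 : 64 * ℓ ≤ a * lam * ℓ := mul_le_mul_of_nonneg_right hal hℓ0.le
          have h7 : a * lam * ℓ = a * (lam * ℓ) := by ring
          rw [hE3]
          linarith
  -- second term
  have hT2 : 96 * 4 ^ (j + τ) * N * y ^ k ≤ 2 ^ (-E - 2) := by
    have hx : y ≤ 2 ^ (-(β * lam / 2)) := by
      calc y ≤ 16 * 2 ^ (lam * -β) := hy
        _ = 2 ^ (4 : ℝ) * 2 ^ (lam * -β) := by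
            have : (2 : ℝ) ^ (4 : ℝ) = 16 := by norm_num
            rw [this]
        _ = 2 ^ (4 + lam * -β) := by rw [Real.rpow_add h2]
        _ ≤ _ := mono (by linarith)
    have hxk : y ^ k ≤ 2 ^ (-(β * a * (lam * ℓ) / 8)) := by
      calc y ^ k ≤ (2 ^ (-(β * lam / 2))) ^ k :=
            pow_le_pow_left₀ hy0 hx k
        _ = 2 ^ (-(β * lam / 2) * k) := by rw [Real.rpow_mul h2.le, Real.rpow_natCast]
        _ ≤ _ := by
            refine mono ?_
            have := mul_le_mul_of_nonneg_left hkℓ (by positivity : 0 ≤ β * lam / 2)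
            linarith
    have h96 : (96 : ℝ) ≤ 2 ^ (7 : ℝ) := by norm_num
    have h4p : (4 : ℝ) ^ (j + τ) ≤ 2 ^ (2 * ℓ + 2 * (8 / a * lam + 1)) := by
      have e : (4 : ℝ) ^ (j + τ) = 2 ^ (2 * ((j : ℝ) + τ)) := by
        rw [Real.rpow_mul h2.le]
        have : (2 : ℝ) ^ (2 : ℝ) = 4 := by norm_num
        rw [this, ← Nat.cast_add, Real.rpow_natCast]
      rw [e]
      refine mono ?_
      have h5 : (1 - a / 2) * ℓ ≤ 1 * ℓ := mul_le_mul_of_nonneg_right (by linarith) hℓ0.le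
      linarith
    calc 96 * 4 ^ (j + τ) * N * y ^ k
        ≤ 2 ^ (7 : ℝ) * 2 ^ (2 * ℓ + 2 * (8 / a * lam + 1)) * 2 ^ E
          * 2 ^ (-(β * a * (lam * ℓ) / 8)) := by
          refine mul_le_mul ?_ hxk (by positivity) (by positivity)
          refine mul_le_mul ?_ hN (by positivity) (by positivity)
          exact mul_le_mul h96 h4p (by positivity) (by positivity)
      _ = 2 ^ (7 + (2 * ℓ + 2 * (8 / a * lam + 1)) + E + -(β * a * (lam * ℓ) / 8)) := by
          rw [← Real.rpow_add h2 7, ← Real.rpow_add h2, ← Real.rpow_add h2]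
      _ ≤ _ := by
          refine mono ?_
          have h6 : 64 * ℓ ≤ β * a * lam * ℓ := mul_le_mul_of_nonneg_right hl1 hℓ0.le
          have h7 : β * a * lam * ℓ = β * a * (lam * ℓ) := by ring
          have h8 : 512 * (lam / a) ≤ β * a * (lam * ℓ) := by
            have h9 := mul_le_mul_of_nonneg_right hl2 (by positivity : 0 ≤ lam / a)
            have h10 : β * a ^ 2 * ℓ * (lam / a) = β * a * (lam * ℓ) := by field_simp
            linarith
          have h11 : 8 / a * lam = 8 * (lam / a) := by ring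
          rw [hE3, h11]
          linarith
  -- third term
  have hT3 : (N : ℝ) * ((t.choose (τ + 1) : ℝ) / 2 ^ (j * τ)) ≤ 2 ^ (-E - 2) := by
    have hc : (t.choose (τ + 1) : ℝ) ≤ t ^ (τ + 1) := by
      exact_mod_cast Nat.choose_le_pow t (τ + 1)
    have ht1 : (t : ℝ) ≤ 2 ^ ℓ := ht.trans (mono (by
      have : ℓ * (1 - a) ≤ ℓ * 1 := mul_le_mul_of_nonneg_left (by linarith) hℓ0.le
      linarith))
    have hq : (t : ℝ) / 2 ^ j ≤ 2 ^ (-(a * ℓ / 4)) := by
      calc (t : ℝ) / 2 ^ j ≤ 2 ^ (ℓ * (1 - a)) / 2 ^ ((1 - a / 2) * ℓ - 1) := by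
            refine div_le_div₀ (by positivity) ht (by positivity) ?_
            rw [← Real.rpow_natCast]
            exact mono hj2
        _ = 2 ^ (ℓ * (1 - a) - ((1 - a / 2) * ℓ - 1)) := by rw [← Real.rpow_sub h2]
        _ ≤ _ := mono (by linarith)
    have hqτ : ((t : ℝ) / 2 ^ j) ^ τ ≤ 2 ^ (-(2 * (lam * ℓ))) := by
      calc ((t : ℝ) / 2 ^ j) ^ τ ≤ (2 ^ (-(a * ℓ / 4))) ^ τ :=
            pow_le_pow_left₀ (by positivity) hq τ
        _ = 2 ^ (-(a * ℓ / 4) * τ) := by rw [Real.rpow_mul h2.le, Real.rpow_natCast]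
        _ ≤ _ := by
            refine mono ?_
            have h9 := mul_le_mul_of_nonneg_left hτ1 (by positivity : 0 ≤ a * ℓ / 4)
            have h10 : a * ℓ / 4 * (8 / a * lam) = 2 * (lam * ℓ) := by field_simp; norm_num
            linarith
    calc (N : ℝ) * ((t.choose (τ + 1) : ℝ) / 2 ^ (j * τ))
        ≤ N * (t ^ (τ + 1) / 2 ^ (j * τ)) := by
          refine mul_le_mul_of_nonneg_left ?_ (Nat.cast_nonneg _)
          exact div_le_div_of_nonneg_right hc (by positivity)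
      _ = N * t * (t / 2 ^ j) ^ τ := by
          rw [div_pow, ← pow_mul, pow_succ]; ring
      _ ≤ 2 ^ E * 2 ^ ℓ * 2 ^ (-(2 * (lam * ℓ))) := by
          refine mul_le_mul ?_ hqτ (by positivity) (by positivity)
          exact mul_le_mul hN ht1 (by positivity) (by positivity)
      _ = 2 ^ (E + ℓ + -(2 * (lam * ℓ))) := by
          rw [Real.rpow_add h2, Real.rpow_add h2]
      _ ≤ _ := by
          refine mono ?_
          have h5 : β * a / 256 * (lam * ℓ) ≤ 1 / 256 * (lam * ℓ) :=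
            mul_le_mul_of_nonneg_right (by linarith) hLL.le
          have h6 : 128 * ℓ ≤ lam * ℓ := mul_le_mul_of_nonneg_right hlam128 hℓ0.le
          rw [hE3]
          linarith
  have hp : (0 : ℝ) < 2 ^ (-E) := by positivity
  linarith

/-- The asymptotic lower bound. -/
theorem dpriv_asym (β a : ℝ) (hβ : 0 < β) (hβ1 : β ≤ 1 / 2) (ha : 0 < a) (ha1 : a ≤ 1) :
    ∃ n₀ s₀ : ℕ, ∀ n s : ℕ, n₀ ≤ n → s₀ ≤ s →
      Real.logb 2 s ≤ (n : ℝ) ^ (1 / 2 : ℝ) → ∀ (t N : ℕ) (ε : ℝ), 1 ≤ N →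
      ε ≤ (n : ℝ) ^ (1 - β) → (t : ℝ) ≤ (s : ℝ) ^ (1 - a) →
      (N : ℝ) ≤ (n : ℝ) ^ (β * a / 256 * Real.logb 2 s) →
      ∀ (R Ω : Type) [Fintype R] [Nonempty R] [Fintype Ω] [Nonempty Ω]
        (π : R → Prot N ((Fin t → Ex n) × Ω) (Hy n)), (∀ r, LocallyPrivate ε (π r)) →
        ∃ f : Hy n, IsDnf s f ∧
          privProbR (fun r => (π r).run) f
            (fun h => err f h ≤ 1 / 2 - (n : ℝ) ^ (-(β * a / 256 * Real.logb 2 s)))
          ≤ (n : ℝ) ^ (-(β * a / 256 * Real.logb 2 s)) := by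
  have hβa : 0 < β * a := by positivity
  refine ⟨⌈(2 : ℝ) ^ (64 / (β * a))⌉₊, ⌈(2 : ℝ) ^ (512 / (β * a ^ 2))⌉₊, ?_⟩
  intro n s hn hs hsn t N ε hN hb ht hNn R Ω _ _ _ _ π hπ
  have hnR := Nat.ceil_le.1 hn
  have hsR := Nat.ceil_le.1 hs
  have hn0 : (0 : ℝ) < n := lt_of_lt_of_le (by positivity) hnR
  have hs0 : (0 : ℝ) < s := lt_of_lt_of_le (by positivity) hsR
  obtain ⟨lam, hlam⟩ : ∃ lam : ℝ, lam = Real.logb 2 n := ⟨_, rfl⟩
  obtain ⟨ℓ, hℓ⟩ : ∃ ℓ : ℝ, ℓ = Real.logb 2 s := ⟨_, rfl⟩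
  have hn2 : (n : ℝ) = 2 ^ lam := by
    rw [hlam, Real.rpow_logb (by norm_num) (by norm_num) hn0]
  have hs2 : (s : ℝ) = 2 ^ ℓ := by
    rw [hℓ, Real.rpow_logb (by norm_num) (by norm_num) hs0]
  have hlam1 : 64 / (β * a) ≤ lam := by
    rw [hlam, Real.le_logb_iff_rpow_le (by norm_num) hn0]; exact hnR
  have hℓ1 : 512 / (β * a ^ 2) ≤ ℓ := by
    rw [hℓ, Real.le_logb_iff_rpow_le (by norm_num) hs0]; exact hsR
  rw [← hℓ] at hsn hNn ⊢
  -- sizes
  have hβa1 : β * a ≤ 1 / 2 := by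
    have := mul_le_mul hβ1 ha1 ha.le (by norm_num)
    linarith
  have hlam128 : 128 ≤ lam := by
    refine le_trans ?_ hlam1
    rw [le_div_iff₀ hβa]; linarith
  have hℓ0 : 0 < ℓ := lt_of_lt_of_le (by positivity) hℓ1
  have hlam0 : 0 < lam := by linarith
  have hl2 : 512 ≤ β * a ^ 2 * ℓ := by rwa [div_le_iff₀' (by positivity)] at hℓ1
  have haℓ : 1024 ≤ a * ℓ := by
    have h3 : β * a * (a * ℓ) ≤ 1 / 2 * (a * ℓ) :=
      mul_le_mul_of_nonneg_right hβa1 (by positivity)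
    have h4 : β * a ^ 2 * ℓ = β * a * (a * ℓ) := by ring
    linarith
  have hℓ1024 : 1024 ≤ ℓ := by
    have h3 : a * ℓ ≤ 1 * ℓ := mul_le_mul_of_nonneg_right ha1 hℓ0.le
    linarith
  obtain ⟨j, hj⟩ : ∃ j : ℕ, j = ⌊(1 - a / 2) * ℓ⌋₊ := ⟨_, rfl⟩
  obtain ⟨k, hk⟩ : ∃ k : ℕ, k = ⌊a / 2 * ℓ⌋₊ := ⟨_, rfl⟩
  obtain ⟨τ, hτ⟩ : ∃ τ : ℕ, τ = ⌈8 / a * lam⌉₊ := ⟨_, rfl⟩
  have hj1 : (j : ℝ) ≤ (1 - a / 2) * ℓ := by
    rw [hj]
    exact Nat.floor_le (mul_nonneg (by linarith) hℓ0.le)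
  have hj2 : (1 - a / 2) * ℓ - 1 ≤ j := by
    rw [hj]
    have := Nat.lt_floor_add_one ((1 - a / 2) * ℓ)
    linarith
  have hk1 : (k : ℝ) ≤ a / 2 * ℓ := by
    rw [hk]
    exact Nat.floor_le (by positivity)
  have hk2 : a / 2 * ℓ - 1 ≤ k := by
    rw [hk]
    have := Nat.lt_floor_add_one (a / 2 * ℓ)
    linarith
  have hτ1 : 8 / a * lam ≤ τ := by rw [hτ]; exact Nat.le_ceil _
  have hτ2 : (τ : ℝ) ≤ 8 / a * lam + 1 := by
    rw [hτ]; exact (Nat.ceil_lt_add_one (by positivity)).le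
  have hk1' : 1 ≤ k := by
    have : (1 : ℝ) ≤ k := by linarith
    exact_mod_cast this
  have hjkℓ : ((j + k : ℕ) : ℝ) ≤ ℓ := by push_cast; linarith
  have hn1 : (1 : ℝ) ≤ n := by
    rw [hn2]; exact Real.one_le_rpow (by norm_num) hlam0.le
  have hℓn : ℓ ≤ n := by
    refine hsn.trans ?_
    calc (n : ℝ) ^ (1 / 2 : ℝ) ≤ (n : ℝ) ^ (1 : ℝ) :=
          Real.rpow_le_rpow_of_exponent_le hn1 (by norm_num)
      _ = n := Real.rpow_one _
  have hjkn : j + k ≤ n := by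
    have : ((j + k : ℕ) : ℝ) ≤ n := hjkℓ.trans hℓn
    exact_mod_cast this
  have hsz : 2 ^ (j + k - 1) + 1 ≤ s := by
    have h1 : ((2 ^ (j + k) : ℕ) : ℝ) ≤ s := by
      push_cast
      rw [hs2, ← Real.rpow_natCast]
      refine Real.rpow_le_rpow_of_exponent_le (by norm_num) ?_
      push_cast at hjkℓ
      push_cast
      exact hjkℓ
    have h2 : 2 ^ (j + k) ≤ s := by exact_mod_cast h1
    have h3 : 2 ^ (j + k) = 2 * 2 ^ (j + k - 1) := by
      rw [← pow_succ']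
      congr 1
      omega
    have h4 : 1 ≤ 2 ^ (j + k - 1) := Nat.one_le_two_pow
    omega
  -- enlarge the parameter
  obtain ⟨b', hb'⟩ : ∃ b' : ℝ, b' = max ε k := ⟨_, rfl⟩
  have hb'R : b' ≤ (n : ℝ) ^ (1 - β) := by
    rw [hb']
    refine max_le hb ?_
    have h1 : a / 2 * ℓ ≤ 1 * ℓ := mul_le_mul_of_nonneg_right (by linarith) hℓ0.le
    have h2 : (n : ℝ) ^ (1 / 2 : ℝ) ≤ (n : ℝ) ^ (1 - β) :=
      Real.rpow_le_rpow_of_exponent_le hn1 (by linarith)
    linarith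
  have hb'k : (k : ℝ) ≤ b' := by rw [hb']; exact le_max_right _ _
  have hb'0 : 0 ≤ b' := le_trans (Nat.cast_nonneg k) hb'k
  have hπ' : ∀ r, LocallyPrivate b' (π r) := fun r =>
    (hπ r).mono (by rw [hb']; exact le_max_left ε _)
  obtain ⟨f, hf1, hf2⟩ := dpriv_core (n := n) (t := t) (j := j) (k := k) (s := s)
    (τ := τ) π hN hπ' hk1' hjkn
    (by linarith) hsz
    (γ := (n : ℝ) ^ (-(β * a / 256 * ℓ))) (by positivity)
  refine ⟨f, hf1, hf2.trans ?_⟩
  -- the size of the base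
  have hjn : (j : ℝ) ≤ n / 2 := by
    have h3 : (n : ℝ) ^ (1 / 2 : ℝ) ≤ n / 2 := by
      rw [hn2, ← Real.rpow_mul (by norm_num)]
      calc (2 : ℝ) ^ (lam * (1 / 2)) ≤ 2 ^ (lam - 1) :=
            Real.rpow_le_rpow_of_exponent_le (by norm_num) (by linarith)
        _ = 2 ^ lam / 2 := by rw [Real.rpow_sub (by norm_num), Real.rpow_one]
    have h5 : (1 - a / 2) * ℓ ≤ 1 * ℓ := mul_le_mul_of_nonneg_right (by linarith) hℓ0.le
    linarith
  have hnj : (n : ℝ) / 2 ≤ ((n - j : ℕ) : ℝ) := by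
    rw [Nat.cast_sub (by omega)]; linarith
  have hy : 6 * b' / ((n - j : ℕ) : ℝ) ≤ 16 * (n : ℝ) ^ (-β) := by
    calc 6 * b' / ((n - j : ℕ) : ℝ) ≤ 6 * (n : ℝ) ^ (1 - β) / (n / 2) :=
          div_le_div₀ (by positivity) (by linarith) (by positivity) hnj
      _ = 12 * (n : ℝ) ^ (-β) := by
          have h6 : (n : ℝ) ^ (1 - β) = (n : ℝ) ^ (-β) * n := by
            rw [← Real.rpow_add_one hn0.ne']
            congr 1
            ring
          rw [h6]
          field_simp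
          norm_num
      _ ≤ _ := mul_le_mul_of_nonneg_right (by norm_num) (by positivity)
  exact dasym_terms hβ hβ1 ha ha1 rfl hn2 hs2 hlam1 hℓ1 hsn hj1 hj2 hk1 hk2 hτ1 hτ2
    (by positivity) hy ht hNn hk1' hjkn

/-- One batch of nearly linear size and a message with the length of one term suffice for weak
learning. -/
theorem dnf_weak' {n t : ℕ} {s l : ℕ} {δ : ℝ} (hs : 1 ≤ s) (hδ : 0 < δ) (hl : 4 * s ≤ 2 ^ l)
    (ht : 16 * s * (l * Real.log (2 * n + 1) + Real.log (1 / δ)) ≤ t) :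
    ∃ π : Bool → Prot 1 (Fin t → Ex n) (Hy n),
      (∀ r j, (π r).load j ≤ Nat.clog 2 ((2 * n + 1) ^ l + 1)) ∧
      (∀ r, (π r).Silent (Nat.clog 2 ((2 * n + 1) ^ l + 1))) ∧
      ∀ f : Hy n, IsDnf s f →
        ∃ r, 1 - δ ≤ batchLearn (π r).run f (1 / 2 - 1 / (16 * s)) := by
  classical
  -- the picked hypothesis
  have hpick : ∀ e : Fin t → Ex n, ∃ D : Few n 2 l, ∃ D' ∈ cand n 2 l (Rt e),
      hF D = hyp D' ∧ ∀ D'' ∈ cand n 2 l (Rt e), (univ.filter fun x => hyp D'' x = true).card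
        ≤ (univ.filter fun x => hyp D' x = true).card := by
    intro e
    obtain ⟨D', hD', hmax⟩ := exists_pick (n := n) (l := l) (s := 2) (by norm_num) (Rt e)
    have h1 := mem_cand.1 hD'
    refine ⟨⟨(univ : Finset {T : Tm n // T.card ≤ l}).filter fun T => T.1 ∈ D', ?_⟩, D', hD', ?_,
      hmax⟩
    · have h2 : ((univ : Finset {T : Tm n // T.card ≤ l}).filter fun T => T.1 ∈ D').card
          ≤ D'.card := by
        refine card_le_card_of_injOn Subtype.val ?_ (Subtype.val_injective.injOn)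
        intro T hT
        exact (mem_filter.1 hT).2
      omega
    · unfold hF
      congr 1
      ext T
      simp only [mem_image, mem_filter, mem_univ, true_and]
      constructor
      · rintro ⟨T', h2, rfl⟩
        exact h2
      · intro hT
        exact ⟨⟨T, (h1.2 T hT).1⟩, hT, rfl⟩
  choose F D' hD' hFD hmax using hpick
  have hcF : Fintype.card (Few n 2 l) ≤ 2 ^ Nat.clog 2 ((2 * n + 1) ^ l + 1) := by
    have h : Fintype.card (Few n 2 l) ≤ (2 * n + 1) ^ l + 1 :=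
      (card_Few n 2 l).trans (le_of_eq (pow_one _))
    exact h.trans (Nat.le_pow_clog (by norm_num) _)
  obtain ⟨π₁, hπ1, hπ2, hπ3⟩ := exists_one (E := Fin t → Ex n) (H := Hy n)
    (A := Few n 2 l) (Nat.clog 2 ((2 * n + 1) ^ l + 1)) hcF F hF
  obtain ⟨π₂, hρ1, hρ2, hρ3⟩ := exists_one (E := Fin t → Ex n) (H := Hy n)
    (A := Few n 2 l) (Nat.clog 2 ((2 * n + 1) ^ l + 1)) hcF F (fun _ _ => true)
  refine ⟨fun r => if r then π₁ else π₂, ?_, ?_, fun f hf => ?_⟩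
  · intro r j
    cases r
    · exact hρ2 j
    · exact hπ2 j
  · intro r
    cases r
    · exact hρ3
    · exact hπ3
  have hsR : (1 : ℝ) ≤ s := by exact_mod_cast hs
  have h2n : (0 : ℝ) < 2 ^ n := by positivity
  by_cases hp : ((univ.filter fun x => f x = true).card : ℝ) ≤ (1 / 2 + 1 / (16 * s)) * 2 ^ n
  · -- the picked term is good
    have h1 : 1 - δ ≤ batchLearn π₁.run f (1 / 2 - 1 / (16 * s)) := by
      refine batchLearn_one_le ((Nat.cast_le.2 (card_le_card ?_)).trans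
        (refute_prob (l := l) (τ := 1 / (16 * s)) hδ f ?_))
      · intro X hX
        have hX := (mem_filter.1 hX).2
        rw [mem_filter]
        refine ⟨mem_univ _, ?_⟩
        by_contra hcon
        push Not at hcon
        refine hX ?_
        rw [hπ1, hFD]
        refine err_weak hs hf (Z := Rt fun j => (X 0 j, f (X 0 j))) (by
          rintro T ⟨i, h2, h3⟩
          exact ⟨X 0 i, h2, h3⟩) hl (fun T hT hTZ => ?_) (hD' _) (hmax _) hp
        by_contra hcon2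
        push Not at hcon2
        obtain ⟨i, h2, h3⟩ := hcon T hT hcon2
        exact hTZ ⟨i, h2, h3⟩
      · have h1 : 1 / (16 * (s : ℝ)) * (16 * s * (l * Real.log (2 * n + 1) + Real.log (1 / δ)))
            = l * Real.log (2 * n + 1) + Real.log (1 / δ) := by field_simp
        rw [← h1]
        exact mul_le_mul_of_nonneg_left ht (by positivity)
    exact ⟨true, h1⟩
  · push Not at hp
    have herr : err f (fun _ => true) ≤ 1 / 2 - 1 / (16 * s) := by
      unfold err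
      rw [div_le_iff₀ h2n]
      have h1 : (univ.filter fun x : Fin n → Bool => true ≠ f x)
          = univ.filter fun x => ¬ f x = true := by
        ext x
        rw [mem_filter, mem_filter]
        cases f x <;> simp
      rw [h1]
      have h2 := card_filter_add_card_filter_not (s := (univ : Finset (Fin n → Bool)))
        (fun x => f x = true)
      rw [card_univ, Fintype.card_fun, Fintype.card_fin, Fintype.card_bool] at h2
      have h2R : ((univ.filter fun x => f x = true).card : ℝ)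
          + ((univ.filter fun x => ¬ f x = true).card : ℝ) = 2 ^ n := by exact_mod_cast h2
      have h3 : (1 / 2 - 1 / (16 * (s : ℝ))) * 2 ^ n
          = 1 / 2 * 2 ^ n - 1 / (16 * (s : ℝ)) * 2 ^ n := by ring
      have h4 : (1 / 2 + 1 / (16 * (s : ℝ))) * 2 ^ n
          = 1 / 2 * 2 ^ n + 1 / (16 * (s : ℝ)) * 2 ^ n := by ring
      rw [h4] at hp
      rw [h3]
      linarith
    have h1 : 1 - δ ≤ batchLearn π₂.run f (1 / 2 - 1 / (16 * s)) := by
      refine batchLearn_one_le ?_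
      have h2 : (univ.filter fun X : Fin 1 → Fin t → Fin n → Bool =>
          ¬ err f (π₂.run fun i j => (X i j, f (X i j))) ≤ 1 / 2 - 1 / (16 * s)) = ∅ := by
        rw [filter_eq_empty_iff]
        intro X _ h
        refine h ?_
        rw [hρ1]
        exact herr
      rw [h2]
      simp only [card_empty, Nat.cast_zero]
      positivity
    exact ⟨false, h1⟩

/-- One user with a batch of nearly linear size suffices for weak learning. -/
theorem dpriv_weak {n t s l Q : ℕ} {δ ε : ℝ} (hs : 1 ≤ s) (hδ : 0 < δ) (hQ : 1 ≤ Q)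
    (hl : 4 * s ≤ 2 ^ l)
    (ht : 16 * s * (l * Real.log (2 * n + 1) + Real.log (1 / δ)) ≤ t)
    (hε : Real.log Q + (Nat.clog 2 ((2 * n + 1) ^ l + 1) : ℕ) * Real.log 2 ≤ ε) :
    ∃ π : Bool → Prot 1 ((Fin t → Ex n) ×
        ((Fin (Nat.clog 2 ((2 * n + 1) ^ l + 1)) → Bool) × Fin Q)) (Hy n),
      (∀ r, LocallyPrivate ε (π r)) ∧
      (∀ r j, (π r).load j ≤ Nat.clog 2 ((2 * n + 1) ^ l + 1)) ∧
      ∀ f : Hy n, IsDnf s f → (1 - δ - 1 / Q) / 2 ≤
        privProbR (fun r => (π r).run) f (fun h => err f h ≤ 1 / 2 - 1 / (16 * s)) := by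
  classical
  obtain ⟨π, _, hπ2, hπ3⟩ := dnf_weak' (n := n) (t := t) (l := l) hs hδ hl ht
  choose π' h1 h2 h3 using fun r => exists_priv hQ hε (π r) (hπ2 r)
  refine ⟨π', h1, h2, fun f hf => ?_⟩
  obtain ⟨r, hr⟩ := hπ3 f hf
  have h4 : 1 - δ - 1 / Q ≤ privProb (π' r).run f (fun h => err f h ≤ 1 / 2 - 1 / (16 * s)) := by
    refine privProb_ge hQ (π r) (π' r) (h3 r) _ _ ?_
    have h5 := hr
    unfold batchLearn at h5
    rw [le_div_iff₀ (by positivity), pow_one] at h5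
    convert h5 using 3
  have h6 : ∀ r, 0 ≤ privProb (π' r).run f (fun h => err f h ≤ 1 / 2 - 1 / (16 * s)) := by
    intro r
    unfold privProb
    positivity
  unfold privProbR
  rw [Fintype.sum_bool, Fintype.card_bool]
  have h7 := h6 true
  have h8 := h6 false
  cases r
  · push_cast
    linarith
  · push_cast
    linarith

/-- One user with a large batch suffices. -/
theorem dpriv_up {n t s l Q : ℕ} {η δ ε : ℝ} (hs : 1 ≤ s) (hη : 0 < η) (hδ : 0 < δ) (hQ : 1 ≤ Q)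
    (hl : s / η ≤ 2 ^ l)
    (ht : 4 * s / η * (l * Real.log (2 * n + 1) + Real.log (1 / δ)) ≤ t)
    (hε : Real.log Q + (Nat.clog 2 (((2 * n + 1) ^ l + 1) ^ (s - 1)) : ℕ) * Real.log 2 ≤ ε) :
    ∃ π : Prot 1 ((Fin t → Ex n) ×
        ((Fin (Nat.clog 2 (((2 * n + 1) ^ l + 1) ^ (s - 1))) → Bool) × Fin Q)) (Hy n),
      LocallyPrivate ε π ∧
      (∀ j, π.load j ≤ Nat.clog 2 (((2 * n + 1) ^ l + 1) ^ (s - 1))) ∧
      ∀ f : Hy n, IsDnf s f → 1 - δ - 1 / Q ≤ privProb π.run f (fun h => err f h ≤ η) := by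
  classical
  obtain ⟨π, _, hπ2, hπ3⟩ := dnf_up (n := n) (t := t) (l := l) hs hη hδ hl ht
  obtain ⟨π', h1, h2, h3⟩ := exists_priv hQ hε π hπ2
  refine ⟨π', h1, h2, fun f hf => ?_⟩
  refine privProb_ge hQ π π' h3 _ _ ?_
  have h5 := hπ3 f hf
  unfold batchLearn at h5
  rw [le_div_iff₀ (by positivity), pow_one] at h5
  convert h5 using 3

end Pool.Agent.Q126.LP
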