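import Pool.Agent.Q126.LP.Defs
import Pool.Agent.Q126.BL.Up

/-!
Randomized response: one party with a large batch suffices.
-/

set_option autoImplicit false

namespace Pool.Agent.Q126.LP

open Finset Pool.Agent.W964.Wd Pool.Agent.Y636.CL Pool.Agent.Q126.BL

/-- One party sends a code word. -/
def sendP {E H : Type} : (b : ℕ) → (E → Fin b → Bool) → ((Fin b → Bool) → H) → Prot 1 E H
  | 0, _, o => .out (o Fin.elim0)
  | b + 1, g, o => .say 0 (fun e => g e 0)
      (sendP b (fun e i => g e i.succ) fun v => o (Fin.cons false v))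
      (sendP b (fun e i => g e i.succ) fun v => o (Fin.cons true v))

theorem sendP_run {E H : Type} (b : ℕ) (g : E → Fin b → Bool) (o : (Fin b → Bool) → H)
    (e : Fin 1 → E) : (sendP b g o).run e = o (g (e 0)) := by
  induction b with
  | zero =>
    show o Fin.elim0 = o (g (e 0))
    congr 1
    funext i
    exact i.elim0
  | succ b ih =>
    have hc : ∀ c : Bool, g (e 0) 0 = c → Fin.cons c (fun i : Fin b => g (e 0) i.succ)
        = g (e 0) := by
      intro c hc
      funext i
      refine Fin.cases ?_ (fun i => ?_) i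
      · rw [Fin.cons_zero]; exact hc.symm
      · rw [Fin.cons_succ]
    simp only [sendP, Prot.run]
    split_ifs with h
    · rw [ih, hc true h]
    · rw [ih, hc false (by simpa using h)]

theorem tr_sendP {E H : Type} (b : ℕ) (g : E → Fin b → Bool) (o : (Fin b → Bool) → H)
    (e : Fin 1 → E) : transcript (sendP b g o) e = List.ofFn (g (e 0)) := by
  induction b with
  | zero => rfl
  | succ b ih =>
    simp only [sendP, transcript]
    rw [List.ofFn_succ]
    split_ifs with h
    · rw [ih, h]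
    · rw [ih]
      have : g (e 0) 0 = false := by simpa using h
      rw [this]

theorem sendP_load {E H : Type} (b : ℕ) (g : E → Fin b → Bool) (o : (Fin b → Bool) → H)
    (j : Fin 1) : (sendP b g o).load j ≤ b := by
  induction b with
  | zero => exact Nat.le_refl _
  | succ b ih =>
    simp only [sendP, Prot.load]
    have h1 := ih (fun e i => g e i.succ) fun v => o (Fin.cons false v)
    have h2 := ih (fun e i => g e i.succ) fun v => o (Fin.cons true v)
    split_ifs <;> omega

/-- Randomized response. -/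
theorem exists_priv {E H : Type} {b Q : ℕ} (hQ : 1 ≤ Q) {ε : ℝ}
    (hε : Real.log Q + b * Real.log 2 ≤ ε) (π : Prot 1 E H) (hπ : π.Silent b) :
    ∃ π' : Prot 1 (E × ((Fin b → Bool) × Fin Q)) H, LocallyPrivate ε π' ∧
      (∀ j, π'.load j ≤ b) ∧
      ∀ (x : Fin 1 → E) (u : Fin 1 → (Fin b → Bool) × Fin Q), (u 0).2.1 ≠ 0 →
        π'.run (fun j => (x j, u j)) = π.run x := by
  classical
  obtain ⟨q, g, hg⟩ := hπ
  let code : E × ((Fin b → Bool) × Fin Q) → Fin b → Bool :=
    fun p => if p.2.2.1 = 0 then p.2.1 else fun k => q 0 k p.1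
  refine ⟨sendP b code fun v => g fun _ => v, ?_, sendP_load _ _ _, ?_⟩
  · intro i x x' hx τ
    have hexp : ((2 ^ b * Q : ℕ) : ℝ) ≤ Real.exp ε := by
      have hQR : (0 : ℝ) < Q := by exact_mod_cast hQ
      calc ((2 ^ b * Q : ℕ) : ℝ) = Real.exp (Real.log Q + b * Real.log 2) := by
            rw [Real.exp_add, Real.exp_log hQR, Real.exp_nat_mul, Real.exp_log (by norm_num)]
            push_cast
            ring
        _ ≤ _ := Real.exp_le_exp.2 hε
    by_cases hτ : ∃ v : Fin b → Bool, List.ofFn v = τ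
    · obtain ⟨v, hv⟩ := hτ
      have h1 : ((univ.filter fun u : Fin 1 → (Fin b → Bool) × Fin Q =>
          transcript (sendP b code fun v => g fun _ => v) (fun j => (x j, u j)) = τ).card : ℝ)
          ≤ ((2 ^ b * Q : ℕ) : ℝ) := by
        refine Nat.cast_le.2 ((card_le_univ _).trans (le_of_eq ?_))
        rw [Fintype.card_fun, Fintype.card_prod, Fintype.card_fun, Fintype.card_fin,
          Fintype.card_fin, Fintype.card_bool, Fintype.card_fin, pow_one]
      have h2 : (1 : ℝ) ≤ ((univ.filter fun u : Fin 1 → (Fin b → Bool) × Fin Q =>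
          transcript (sendP b code fun v => g fun _ => v) (fun j => (x' j, u j)) = τ).card : ℝ) := by
        have h3 : 0 < (univ.filter fun u : Fin 1 → (Fin b → Bool) × Fin Q =>
            transcript (sendP b code fun v => g fun _ => v) (fun j => (x' j, u j)) = τ).card := by
          rw [card_pos]
          refine ⟨fun _ => (v, ⟨0, hQ⟩), ?_⟩
          rw [mem_filter]
          refine ⟨mem_univ _, ?_⟩
          rw [tr_sendP, ← hv]
          congr 1
        exact_mod_cast h3
      have h4 := mul_le_mul hexp h2 (by norm_num) (Real.exp_pos ε).le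
      linarith
    · have h1 : (univ.filter fun u : Fin 1 → (Fin b → Bool) × Fin Q =>
          transcript (sendP b code fun v => g fun _ => v) (fun j => (x j, u j)) = τ) = ∅ := by
        rw [filter_eq_empty_iff]
        intro u _ h
        rw [tr_sendP] at h
        exact hτ ⟨_, h⟩
      rw [h1, card_empty]
      have := Real.exp_pos ε
      push_cast
      positivity
  · intro x u hu
    rw [sendP_run, hg]
    have h1 : code (x 0, u 0) = fun k => q 0 k (x 0) := by
      show (if (u 0).2.1 = 0 then (u 0).1 else fun k => q 0 k (x 0)) = _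
      rw [if_neg hu]
    rw [h1]
    congr 1
    funext i k
    rw [Subsingleton.elim i 0]

open Classical in
/-- The success probability of randomized response. -/
theorem privProb_ge {m t b Q : ℕ} (hQ : 1 ≤ Q) {H : Type} (π : Prot 1 (Fin t → Ex m) H)
    (π' : Prot 1 ((Fin t → Ex m) × ((Fin b → Bool) × Fin Q)) H)
    (h : ∀ (x : Fin 1 → Fin t → Ex m) (u : Fin 1 → (Fin b → Bool) × Fin Q), (u 0).2.1 ≠ 0 →
        π'.run (fun j => (x j, u j)) = π.run x) (f : Hy m) (P : H → Prop) {δ : ℝ}
    (hδ : (1 - δ) * (2 ^ m) ^ t ≤ ((univ.filter fun X : Fin 1 → Fin t → Fin m → Bool =>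
      P (π.run fun i j => (X i j, f (X i j)))).card : ℝ)) :
    1 - δ - 1 / Q ≤ privProb π'.run f P := by
  classical
  have hQR : (0 : ℝ) < Q := by exact_mod_cast hQ
  obtain ⟨A, hA⟩ : ∃ A : Finset (Fin 1 → Fin t → Fin m → Bool), A = univ.filter fun X =>
      P (π.run fun i j => (X i j, f (X i j))) := ⟨_, rfl⟩
  obtain ⟨B, hB⟩ : ∃ B : Finset (Fin 1 → (Fin b → Bool) × Fin Q), B = univ.filter fun u =>
      (u 0).2.1 ≠ 0 := ⟨_, rfl⟩
  have hAc : (1 - δ) * (2 ^ m) ^ t ≤ (A.card : ℝ) := by
    rw [hA]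
    convert hδ using 3
  have hAle : (A.card : ℝ) ≤ (2 ^ m) ^ t := by
    have h1 := card_le_univ A
    rw [Fintype.card_fun, Fintype.card_fun, Fintype.card_fun, Fintype.card_fin,
      Fintype.card_fin, Fintype.card_fin, Fintype.card_bool, pow_one] at h1
    exact_mod_cast h1
  have hBc : (2 : ℝ) ^ b * Q - 2 ^ b ≤ (B.card : ℝ) := by
    have h1 := card_filter_add_card_filter_not
      (s := (univ : Finset (Fin 1 → (Fin b → Bool) × Fin Q))) (fun u => (u 0).2.1 ≠ 0)
    have h2 : (univ.filter fun u : Fin 1 → (Fin b → Bool) × Fin Q =>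
        ¬ (u 0).2.1 ≠ 0).card ≤ (univ : Finset (Fin b → Bool)).card := by
      refine card_le_card_of_injOn (fun u => (u 0).1) (fun _ _ => mem_univ _) ?_
      intro u hu u' hu' huu
      have e1 := (mem_filter.1 hu).2
      have e2 := (mem_filter.1 hu').2
      push Not at e1 e2
      funext i
      rw [Subsingleton.elim i 0]
      refine Prod.ext huu ?_
      exact Fin.ext (e1.trans e2.symm)
    rw [card_univ, Fintype.card_fun, Fintype.card_prod, Fintype.card_fun, Fintype.card_fin,
      Fintype.card_fin, Fintype.card_bool, Fintype.card_fin, pow_one, ← hB] at h1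
    rw [card_univ, Fintype.card_fun, Fintype.card_fin, Fintype.card_bool] at h2
    have h1R : (B.card : ℝ) + ((univ.filter fun u : Fin 1 → (Fin b → Bool) × Fin Q =>
        ¬ (u 0).2.1 ≠ 0).card : ℝ) = 2 ^ b * Q := by exact_mod_cast h1
    have h2R : ((univ.filter fun u : Fin 1 → (Fin b → Bool) × Fin Q =>
        ¬ (u 0).2.1 ≠ 0).card : ℝ) ≤ 2 ^ b := by exact_mod_cast h2
    linarith
  have hsub : A ×ˢ B ⊆ univ.filter fun p : (Fin 1 → Fin t → Fin m → Bool) ×
      (Fin 1 → (Fin b → Bool) × Fin Q) =>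
      P (π'.run fun i => (fun j => (p.1 i j, f (p.1 i j)), p.2 i)) := by
    intro p hp
    rw [mem_product, hA, hB, mem_filter, mem_filter] at hp
    rw [mem_filter]
    refine ⟨mem_univ _, ?_⟩
    have := h (fun i j => (p.1 i j, f (p.1 i j))) p.2 hp.2.2
    rw [this]
    exact hp.1.2
  have hcard := card_le_card hsub
  rw [card_product] at hcard
  have hcardR : (A.card : ℝ) * B.card ≤ ((univ.filter fun p : (Fin 1 → Fin t → Fin m → Bool) ×
      (Fin 1 → (Fin b → Bool) × Fin Q) =>
      P (π'.run fun i => (fun j => (p.1 i j, f (p.1 i j)), p.2 i))).card : ℝ) := by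
    exact_mod_cast hcard
  unfold privProb
  rw [le_div_iff₀ (by
    rw [Fintype.card_prod, Fintype.card_fun, Fintype.card_fin, Fintype.card_fin,
      Fintype.card_bool]
    push_cast
    positivity)]
  have hcΩ : (Fintype.card ((Fin b → Bool) × Fin Q) : ℝ) = 2 ^ b * Q := by
    rw [Fintype.card_prod, Fintype.card_fun, Fintype.card_fin, Fintype.card_fin,
      Fintype.card_bool]
    push_cast
    rfl
  rw [hcΩ, pow_one, pow_one]
  have hfin : (1 - δ - 1 / Q) * ((2 ^ m) ^ t * (2 ^ b * Q)) ≤ (A.card : ℝ) * B.card := by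
    have hW : (0 : ℝ) < (2 ^ m) ^ t := by positivity
    have hV : (0 : ℝ) < 2 ^ b := by positivity
    have h1 : (A.card : ℝ) * (2 ^ b * Q - 2 ^ b) ≤ A.card * B.card :=
      mul_le_mul_of_nonneg_left hBc (Nat.cast_nonneg _)
    have h2 : (A.card : ℝ) * 2 ^ b ≤ (2 ^ m) ^ t * 2 ^ b :=
      mul_le_mul_of_nonneg_right hAle hV.le
    have h3 : (1 - δ) * (2 ^ m) ^ t * (2 ^ b * Q) ≤ A.card * (2 ^ b * Q) :=
      mul_le_mul_of_nonneg_right hAc (by positivity)
    have h4 : (1 - δ - 1 / Q) * ((2 ^ m) ^ t * (2 ^ b * Q))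
        = (1 - δ) * (2 ^ m) ^ t * (2 ^ b * Q) - (2 ^ m) ^ t * 2 ^ b := by
      field_simp
    rw [h4]
    linarith
  refine hfin.trans (hcardR.trans (le_of_eq ?_))
  congr 2

/-- One party with a large batch suffices, with privacy. -/
theorem priv_up {m k t Q : ℕ} {η δ ε : ℝ} (hδ : 0 < δ) (hQ : 1 ≤ Q)
    (G : Finset ((Fin k → Bool) → Bool)) (hG : G.Nonempty)
    (ht : k * Real.log m + Real.log G.card + Real.log (1 / δ) ≤ η * t)
    (hε : Real.log Q + (Nat.clog 2 (m ^ k) : ℕ) * Real.log 2 ≤ ε) :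
    ∃ π : Prot 1 ((Fin t → Ex m) × ((Fin (Nat.clog 2 (m ^ k)) → Bool) × Fin Q))
        (Finset (Fin m)),
      LocallyPrivate ε π ∧ (∀ j, π.load j ≤ Nat.clog 2 (m ^ k)) ∧
      ∀ g ∈ G, ∀ s : Fin k → Fin m,
        1 - δ - 1 / Q ≤ privProb π.run (junta g s)
          (fun A => A.card ≤ k ∧ 1 / 2 - η ≤ adv (junta g s) A) := by
  classical
  obtain ⟨π, _, hπ2, hπ3⟩ := batch_up (m := m) (k := k) (t := t) hδ G hG ht
  obtain ⟨π', h1, h2, h3⟩ := exists_priv hQ hε π hπ2
  refine ⟨π', h1, h2, fun g hg s => ?_⟩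
  refine privProb_ge hQ π π' h3 _ _ ?_
  have h4 := hπ3 g hg s
  unfold batchProb at h4
  rw [le_div_iff₀ (by positivity), pow_one] at h4
  convert h4 using 3

end Pool.Agent.Q126.LP
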