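import Pool.Agent.Q126.LP.DTyp
import Pool.Agent.Q126.LP.Core
import Pool.Agent.Q126.BD.Core

/-!
The lower bound for locally private learners of DNF formulas.
-/

set_option autoImplicit false

namespace Pool.Agent.Q126.LP

open Finset Pool.Agent.W964.Wd Pool.Agent.Y636.CL Pool.Agent.Q126.BL Pool.Agent.Q126.BD

variable {n t j k : ℕ} {Ω : Type} [Fintype Ω]

/-- The sum over the targets of the squared biases of one side of a private rectangle. -/
theorem sum_bt_pwt {N : ℕ} {ρ ε : ℝ} (h0 : 0 < ρ) (h1 : ρ ≤ 1) (hε : 0 ≤ ε)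
    (ι : Fin j → Fin n) (τ : ℕ)
    (SS : Finset (Finset (Fin n))) (hne : SS.Nonempty) (hSS : ∀ S ∈ SS, S.card = k)
    (hι : ∀ S ∈ SS, ∀ h, ι h ∉ S)
    (hL : (2 ^ j * 2 ^ τ) ^ 2 * (ρ⁻¹ ^ k / SS.card) ≤ 1)
    (U : Fin N → Finset ((Fin t → Ex n) × Ω)) (hU : Rect ε U) (i : Fin N) :
    ∑ S ∈ Fintype.piFinset (fun _ : Fin j → Bool => SS),
        pm (pwt ι τ Ω) U * bt (pwt ι τ Ω) (pl (tgA ι S)) (U i) ^ 2
      ≤ 4 * (2 ^ j * 2 ^ τ) ^ 2 * (ρ⁻¹ ^ k / SS.card) * (SS.card : ℝ) ^ (2 ^ j)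
        * Real.exp (2 * ρ * ε) * pm (pwt ι τ Ω) U := by
  classical
  have hp := pm_nonneg (w := pwt ι τ Ω) (pwt_nonneg ι τ) U
  rcases hp.eq_or_lt with h | h
  · rw [← h]
    simp
  · have hms : ∀ i, ms (pwt ι τ Ω) (U i) ≠ 0 := by
      intro i hi
      have : pm (pwt ι τ Ω) U = 0 := by
        unfold pm
        exact prod_eq_zero (mem_univ i) hi
      rw [this] at h
      exact lt_irrefl _ h
    have hUne : ∀ i, (U i).Nonempty := by
      intro i
      rw [nonempty_iff_ne_empty]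
      intro he
      refine hms i ?_
      rw [he]
      unfold ms
      exact sum_empty
    have hi : 0 < ms (pwt ι τ Ω) (U i) :=
      lt_of_le_of_ne (ms_nonneg (w := pwt ι τ Ω) (pwt_nonneg ι τ) _) (hms i).symm
    have hl := typ_priv h0 h1 hε ι τ SS hne hSS hι hL
      (fun e => (gc (U i) e : ℝ) / Fintype.card Ω) (fun e => by positivity) (fun e e' => by
        rw [← mul_div_assoc]
        exact div_le_div_of_nonneg_right (hU.side hUne i e e') (Nat.cast_nonneg _))
    have e1 : (Pool.Agent.TH661.LPX.av fun z : Bi n t → Bool =>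
        if Typ ι τ (fun i => (tb n t z i).1) then (gc (U i) (tb n t z) : ℝ) / Fintype.card Ω
          else 0) = ms (pwt ι τ Ω) (U i) := by
      rw [ms_pwt_one]
      refine Pool.Agent.TH661.LPX.av_congr fun z => ?_
      unfold FA
      by_cases hT : Typ ι τ (fun i => (tb n t z i).1) <;> simp [hT]
    have e2 : ∀ S, (Pool.Agent.TH661.LPX.av fun z : Bi n t → Bool =>
        (if Typ ι τ (fun i => (tb n t z i).1) then (gc (U i) (tb n t z) : ℝ) / Fintype.card Ω
          else 0) * ll (tgA ι S) (tb n t z))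
          = ms (fun p => pwt ι τ Ω p * pl (tgA ι S) p) (U i) := by
      intro S
      have h3 := ms_pwt ι τ (U i) (ll (m := n) (t := t) (tgA ι S))
      have h4 : ms (fun p => pwt ι τ Ω p * pl (tgA ι S) p) (U i)
          = ms (fun p : (Fin t → Ex n) × Ω => pwt ι τ Ω p * (ll (tgA ι S)) p.1) (U i) := rfl
      rw [h4, h3]
      refine Pool.Agent.TH661.LPX.av_congr fun z => ?_
      unfold FA
      by_cases hT : Typ ι τ (fun i => (tb n t z i).1) <;> simp [hT]
    rw [e1] at hl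
    rw [sum_congr rfl fun S _ => by rw [e2 S]] at hl
    have h2 : ∑ S ∈ Fintype.piFinset (fun _ : Fin j → Bool => SS),
          pm (pwt ι τ Ω) U * bt (pwt ι τ Ω) (pl (tgA ι S)) (U i) ^ 2
        = pm (pwt ι τ Ω) U / ms (pwt ι τ Ω) (U i) ^ 2 *
          ∑ S ∈ Fintype.piFinset (fun _ : Fin j → Bool => SS),
            ms (fun p => pwt ι τ Ω p * pl (tgA ι S) p) (U i) ^ 2 := by
      rw [mul_sum]
      refine sum_congr rfl fun κ _ => ?_
      unfold bt
      field_simp
    rw [h2]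
    refine (mul_le_mul_of_nonneg_left hl (by positivity)).trans (le_of_eq ?_)
    field_simp

open Classical in
/-- Typical batches. -/
theorem privProb_le_typ [Nonempty Ω] {N : ℕ} (ι : Fin j → Fin n) (τ : ℕ)
    (A : (Fin N → (Fin t → Ex n) × Ω) → Hy n) (f : Hy n) (P : Hy n → Prop) :
    privProb A f P ≤ ((univ.filter fun p : (Fin N → Fin t → Fin n → Bool) × (Fin N → Ω) =>
        P (A fun i => (fun j => (p.1 i j, f (p.1 i j)), p.2 i)) ∧ ∀ i, Typ ι τ (p.1 i)).card : ℝ)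
          / (((2 ^ n) ^ t) ^ N * (Fintype.card Ω : ℝ) ^ N)
      + N * Pool.Agent.TH661.LPX.av (fun X : Fin t → Fin n → Bool =>
          Pool.Agent.TH661.LPX.ind (¬ Typ ι τ X)) := by
  have hΩ : (0 : ℝ) < (Fintype.card Ω : ℝ) := by exact_mod_cast Fintype.card_pos
  obtain ⟨D, hD⟩ : ∃ D : ℝ, D = ((2 ^ n) ^ t) ^ N * (Fintype.card Ω : ℝ) ^ N := ⟨_, rfl⟩
  have hD0 : 0 < D := by rw [hD]; positivity
  -- the atypical points
  have hatyp : ((univ.filter fun X : Fin N → Fin t → Fin n → Bool =>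
      ¬ ∀ i, Typ ι τ (X i)).card : ℝ) ≤ ((2 ^ n) ^ t) ^ N * (N *
        Pool.Agent.TH661.LPX.av (fun X : Fin t → Fin n → Bool =>
          Pool.Agent.TH661.LPX.ind (¬ Typ ι τ X))) := by
    have h3 : ∀ i : Fin N, Pool.Agent.TH661.LPX.av (fun X : Fin N → Fin t → Fin n → Bool =>
        Pool.Agent.TH661.LPX.ind (¬ Typ ι τ (X i)))
        = Pool.Agent.TH661.LPX.av (fun X : Fin t → Fin n → Bool =>
            Pool.Agent.TH661.LPX.ind (¬ Typ ι τ X)) := by
      intro i
      have h4 := Pool.Agent.TH661.LPX.av_pi_subset ({i} : Finset (Fin N))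
        (fun (_ : Fin N) (x : Fin t → Fin n → Bool) => Pool.Agent.TH661.LPX.ind (¬ Typ ι τ x))
      simp only [prod_singleton] at h4
      exact h4
    have h4 : (N : ℝ) * Pool.Agent.TH661.LPX.av (fun X : Fin t → Fin n → Bool =>
            Pool.Agent.TH661.LPX.ind (¬ Typ ι τ X))
        = Pool.Agent.TH661.LPX.av (fun X : Fin N → Fin t → Fin n → Bool =>
          ∑ i, Pool.Agent.TH661.LPX.ind (¬ Typ ι τ (X i))) := by
      rw [Pool.Agent.TH661.LPX.av_sum, sum_congr rfl fun i _ => h3 i, sum_const, card_univ,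
        Fintype.card_fin, nsmul_eq_mul]
    rw [h4]
    unfold Pool.Agent.TH661.LPX.av
    rw [card_batches, mul_div_cancel₀ _ (by positivity), ← sum_boole]
    refine sum_le_sum fun X _ => ?_
    by_cases hT : ∀ i, Typ ι τ (X i)
    · rw [if_neg (not_not.2 hT)]
      exact sum_nonneg fun i _ => Pool.Agent.TH661.LPX.ind_nonneg _
    · rw [if_pos hT]
      push Not at hT
      obtain ⟨i, hi⟩ := hT
      rw [← Pool.Agent.TH661.LPX.ind_true hi]
      exact single_le_sum (f := fun i => Pool.Agent.TH661.LPX.ind (¬ Typ ι τ (X i)))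
        (fun _ _ => Pool.Agent.TH661.LPX.ind_nonneg _) (mem_univ i)
  have hsub : (univ.filter fun p : (Fin N → Fin t → Fin n → Bool) × (Fin N → Ω) =>
        P (A fun i => (fun j => (p.1 i j, f (p.1 i j)), p.2 i)))
      ⊆ (univ.filter fun p : (Fin N → Fin t → Fin n → Bool) × (Fin N → Ω) =>
        P (A fun i => (fun j => (p.1 i j, f (p.1 i j)), p.2 i)) ∧ ∀ i, Typ ι τ (p.1 i))
      ∪ (univ.filter fun X : Fin N → Fin t → Fin n → Bool => ¬ ∀ i, Typ ι τ (X i)) ×ˢ
        (univ : Finset (Fin N → Ω)) := by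
    intro p hp
    rw [mem_filter] at hp
    rw [mem_union, mem_filter, mem_product, mem_filter]
    by_cases hT : ∀ i, Typ ι τ (p.1 i)
    · left
      exact ⟨mem_univ _, hp.2, hT⟩
    · right
      exact ⟨⟨mem_univ _, hT⟩, mem_univ _⟩
  have hcard := (card_le_card hsub).trans (card_union_le _ _)
  rw [card_product, card_univ, Fintype.card_fun, Fintype.card_fin] at hcard
  have hcardR : ((univ.filter fun p : (Fin N → Fin t → Fin n → Bool) × (Fin N → Ω) =>
        P (A fun i => (fun j => (p.1 i j, f (p.1 i j)), p.2 i))).card : ℝ)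
      ≤ ((univ.filter fun p : (Fin N → Fin t → Fin n → Bool) × (Fin N → Ω) =>
        P (A fun i => (fun j => (p.1 i j, f (p.1 i j)), p.2 i)) ∧ ∀ i, Typ ι τ (p.1 i)).card : ℝ)
      + ((univ.filter fun X : Fin N → Fin t → Fin n → Bool => ¬ ∀ i, Typ ι τ (X i)).card : ℝ) *
        (Fintype.card Ω : ℝ) ^ N := by exact_mod_cast hcard
  unfold privProb
  rw [← hD, div_add' _ _ _ hD0.ne']
  refine div_le_div_of_nonneg_right (hcardR.trans ?_) hD0.le
  refine add_le_add le_rfl ?_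
  refine (mul_le_mul_of_nonneg_right hatyp (by positivity)).trans (le_of_eq ?_)
  rw [hD]
  ring

open Classical in
/-- The success probability on typical batches is a sum over the leaves of the protocol. -/
theorem typPriv_eq [Nonempty Ω] {N : ℕ} (ι : Fin j → Fin n) (τ : ℕ)
    (T : Prot N ((Fin t → Ex n) × Ω) (Hy n)) (f : Hy n) (η : ℝ) :
    ((univ.filter fun p : (Fin N → Fin t → Fin n → Bool) × (Fin N → Ω) =>
        err f (T.run fun i => (fun j => (p.1 i j, f (p.1 i j)), p.2 i)) ≤ η ∧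
          ∀ i, Typ ι τ (p.1 i)).card : ℝ)
          / (((2 ^ n) ^ t) ^ N * (Fintype.card Ω : ℝ) ^ N)
      = leaf (fun h U => (if err f h ≤ η then (1 : ℝ) else 0) *
        pm (fun p => pwt ι τ Ω p * (1 + pl f p)) U) T fun _ => univ := by
  have hc : (Fintype.card Ω : ℝ) ≠ 0 := by exact_mod_cast Fintype.card_ne_zero
  rw [leaf_run, ← sum_boole, sum_div]
  refine sum_of_injOn (fun p i => (fun j => (p.1 i j, f (p.1 i j)), p.2 i)) ?_ ?_ ?_ ?_
  · intro p _ p' _ hpp
    refine Prod.ext ?_ ?_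
    · funext i j
      have := congrFun (Prod.ext_iff.1 (congrFun hpp i)).1 j
      exact (Prod.ext_iff.1 this).1
    · funext i
      exact (Prod.ext_iff.1 (congrFun hpp i)).2
  · intro p _
    simp
  · intro e _ he
    obtain ⟨i, j, hij⟩ : ∃ i j, ((e i).1 j).2 ≠ f ((e i).1 j).1 := by
      by_contra hcon
      push Not at hcon
      refine he ⟨(fun i j => ((e i).1 j).1, fun i => (e i).2), by simp, ?_⟩
      funext i
      refine Prod.ext ?_ rfl
      funext j
      exact Prod.ext rfl (hcon i j).symm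
    have h1 : pf f ((e i).1 j) = -1 := by
      unfold pf
      revert hij
      unfold Pool.Agent.TH661.LPX.sg
      cases ((e i).1 j).2 <;> cases f ((e i).1 j).1 <;> simp
    have h2 : 1 + pl f (e i) = 0 := by
      unfold pl ll
      rw [prod_eq_zero (mem_univ j) (by rw [h1]; ring)]
      ring
    rw [prod_eq_zero (mem_univ i) (by rw [h2, mul_zero]), zero_mul]
  · intro p _
    have h1 : ∀ i, pwt ι τ Ω (fun j => (p.1 i j, f (p.1 i j)), p.2 i) *
        (1 + pl f (fun j => (p.1 i j, f (p.1 i j)), p.2 i))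
        = if Typ ι τ (p.1 i) then ((2 ^ n) ^ t * (Fintype.card Ω : ℝ))⁻¹ else 0 := by
      intro i
      have h2 : ∀ j, 1 + pf f (p.1 i j, f (p.1 i j)) = 2 := by
        intro j
        have : pf f (p.1 i j, f (p.1 i j)) = 1 := by
          unfold pf
          exact Pool.Agent.TH661.LPX.sg_mul_self _
        rw [this]
        norm_num
      have h3 : 1 + pl f ((fun j => (p.1 i j, f (p.1 i j)), p.2 i) : (Fin t → Ex n) × Ω)
          = 2 ^ t := by
        unfold pl ll
        rw [prod_congr rfl fun j _ => h2 j, prod_const, card_univ, Fintype.card_fin]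
        ring
      rw [h3]
      unfold pwt wt
      have h6 : (fun j => (((fun j => (p.1 i j, f (p.1 i j)), p.2 i) :
          (Fin t → Ex n) × Ω).1 j).1) = p.1 i := rfl
      rw [h6]
      split_ifs
      · unfold bw
        rw [mul_pow]
        have h4 : ((2 : ℝ) ^ n) ^ t ≠ 0 := by positivity
        have h5 : (2 : ℝ) ^ t ≠ 0 := by positivity
        field_simp
      · rw [zero_div, zero_mul]
    rw [prod_congr rfl fun i _ => h1 i]
    by_cases hT : ∀ i, Typ ι τ (p.1 i)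
    · have h7 : ∀ i : Fin N, (if Typ ι τ (p.1 i) then
          (((2 : ℝ) ^ n) ^ t * (Fintype.card Ω : ℝ))⁻¹ else 0)
          = ((2 ^ n) ^ t * (Fintype.card Ω : ℝ))⁻¹ := fun i => if_pos (hT i)
      rw [prod_congr rfl fun i _ => h7 i, prod_const, card_univ, Fintype.card_fin]
      by_cases hE : err f (T.run fun i => (fun j => (p.1 i j, f (p.1 i j)), p.2 i)) ≤ η
      · rw [if_pos ⟨hE, hT⟩, if_pos hE, inv_pow, mul_one, mul_pow, one_div]
      · rw [if_neg fun h => hE h.1, if_neg hE]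
        simp
    · rw [if_neg fun h => hT h.2]
      push Not at hT
      obtain ⟨i, hi⟩ := hT
      rw [prod_eq_zero (mem_univ i) (if_neg hi)]
      simp

open Classical in
/-- The sum of the success probabilities over all targets. -/
theorem sum_priv_le [Nonempty Ω] {N : ℕ} {ρ ε : ℝ} (h0 : 0 < ρ) (h1 : ρ ≤ 1) (hε : 0 ≤ ε)
    (ι : Fin j → Fin n)
    (τ : ℕ) (SS : Finset (Finset (Fin n))) (hne : SS.Nonempty)
    (hSS : ∀ S ∈ SS, S.card = k) (hι : ∀ S ∈ SS, ∀ h, ι h ∉ S)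
    (hL : (2 ^ j * 2 ^ τ) ^ 2 * (ρ⁻¹ ^ k / SS.card) ≤ 1)
    (T : Prot N ((Fin t → Ex n) × Ω) (Hy n)) (hT : LocallyPrivate ε T)
    {γ : ℝ} (hγ : 0 < γ) :
    ∑ S ∈ Fintype.piFinset (fun _ : Fin j → Bool => SS),
      privProb T.run (tgA ι S) (fun h => err (tgA ι S) h ≤ 1 / 2 - γ)
      ≤ Real.exp 1 * (2 ^ j / (4 * γ ^ 2) * ((SS.card : ℝ) ^ (2 ^ j) / SS.card))
        + Real.exp 2 * (3 * (N * (4 * (2 ^ j * 2 ^ τ) ^ 2 * (ρ⁻¹ ^ k / SS.card) *
          (SS.card : ℝ) ^ (2 ^ j) * Real.exp (2 * ρ * ε))))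
        + (SS.card : ℝ) ^ (2 ^ j) * (N * Pool.Agent.TH661.LPX.av
          (fun X : Fin t → Fin n → Bool => Pool.Agent.TH661.LPX.ind (¬ Typ ι τ X))) := by
  have hSp : (0 : ℝ) < SS.card := by exact_mod_cast hne.card_pos
  set P := Fintype.piFinset (fun _ : Fin j → Bool => SS) with hP
  have hPc : (P.card : ℝ) = (SS.card : ℝ) ^ (2 ^ j) := by
    rw [hP, Fintype.card_piFinset, prod_const, card_univ, Fintype.card_fun, Fintype.card_fin,
      Fintype.card_bool]
    push_cast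
    rfl
  let U : Fin N → Finset ((Fin t → Ex n) × Ω) := fun _ => univ
  have hSι : ∀ S ∈ P, ∀ a, ∀ h, ι h ∉ S a := fun S hS a h =>
    hι _ (Fintype.mem_piFinset.1 hS a) h
  have hbt : ∀ S ∈ P, ∀ i, bt (pwt ι τ Ω) (pl (tgA ι S)) (U i) = 0 := fun S hS i =>
    bt_pwt_univ ι τ S (hSι S hS)
  have hz : ∀ S ∈ P, zz (pwt ι τ Ω) (pl (tgA ι S)) U = 0 := fun S hS => by
    unfold zz
    exact sum_eq_zero fun i _ => hbt S hS i
  have hpm : pm (pwt ι τ Ω) U ≤ 1 := by
    unfold pm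
    refine prod_le_one (fun i _ => ms_nonneg (pwt_nonneg ι τ) _) fun i _ => ?_
    rw [ms_pwt_univ]
    exact ms_wt_univ_le ι τ
  have step1 : ∀ S ∈ P, privProb T.run (tgA ι S) (fun h => err (tgA ι S) h ≤ 1 / 2 - γ)
      ≤ (Real.exp 1 * leaf (fun h U =>
          (if err (tgA ι S) h ≤ 1 / 2 - γ then (1 : ℝ) else 0) * pm (pwt ι τ Ω) U) T U
        + Real.exp 2 * (3 * ∑ i, leaf (fun _ U =>
          pm (pwt ι τ Ω) U * bt (pwt ι τ Ω) (pl (tgA ι S)) (U i) ^ 2) T U))
        + N * Pool.Agent.TH661.LPX.av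
          (fun X : Fin t → Fin n → Bool => Pool.Agent.TH661.LPX.ind (¬ Typ ι τ X)) := by
    intro S hS
    refine (privProb_le_typ ι τ T.run (tgA ι S) _).trans ?_
    refine add_le_add ?_ le_rfl
    rw [typPriv_eq]
    have h2 := tilt_le' (w := pwt ι τ Ω) (φ := pl (tgA ι S)) (pwt_nonneg ι τ) (pl_ge _)
      (fun h => if err (tgA ι S) h ≤ 1 / 2 - γ then 1 else 0)
      (fun h => by split_ifs <;> norm_num) (fun h => by split_ifs <;> norm_num) T U
      (fun h => by rw [hz S hS] at h; norm_num at h)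
    refine h2.trans (le_of_eq ?_)
    congr 2
    exact leaf_vv (pwt_nonneg ι τ) T U (hbt S hS)
  refine (sum_le_sum step1).trans ?_
  rw [sum_add_distrib, sum_add_distrib, ← mul_sum, ← mul_sum, ← mul_sum]
  refine add_le_add (add_le_add ?_ ?_) ?_
  · rw [← leaf_sum]
    have h2 : leaf (fun h U => ∑ S ∈ P,
          (if err (tgA ι S) h ≤ 1 / 2 - γ then (1 : ℝ) else 0) * pm (pwt ι τ Ω) U) T U
        ≤ leaf (fun _ U => (2 ^ j / (4 * γ ^ 2) * ((SS.card : ℝ) ^ (2 ^ j) / SS.card)) *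
          pm (pwt ι τ Ω) U) T U := by
      refine leaf_mono (fun h U => ?_) _ _
      rw [← sum_mul]
      refine mul_le_mul_of_nonneg_right ?_ (pm_nonneg (pwt_nonneg ι τ) U)
      exact count_goodA ι h hγ SS hne
    rw [leaf_mul, leaf_pm] at h2
    refine mul_le_mul_of_nonneg_left (h2.trans ?_) (Real.exp_pos 1).le
    exact mul_le_of_le_one_right (by positivity) hpm
  · refine mul_le_mul_of_nonneg_left (mul_le_mul_of_nonneg_left ?_ (by norm_num)) (by positivity)
    rw [sum_comm]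
    have h2 : ∀ i : Fin N, ∑ S ∈ P,
        leaf (fun _ U => pm (pwt ι τ Ω) U * bt (pwt ι τ Ω) (pl (tgA ι S)) (U i) ^ 2) T U
        ≤ 4 * (2 ^ j * 2 ^ τ) ^ 2 * (ρ⁻¹ ^ k / SS.card) *
          (SS.card : ℝ) ^ (2 ^ j) * Real.exp (2 * ρ * ε) := by
      intro i
      rw [← leaf_sum]
      have h3 := leaf_priv (ε := ε)
        (G := fun U => ∑ S ∈ P, pm (pwt ι τ Ω) U * bt (pwt ι τ Ω) (pl (tgA ι S)) (U i) ^ 2)
        (G' := fun U => 4 * (2 ^ j * 2 ^ τ) ^ 2 * (ρ⁻¹ ^ k / SS.card) *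
          (SS.card : ℝ) ^ (2 ^ j) * Real.exp (2 * ρ * ε) * pm (pwt ι τ Ω) U)
        (fun U hU => sum_bt_pwt h0 h1 hε ι τ SS hne hSS hι hL U hU i) T U hT.privS
      refine h3.trans ?_
      rw [leaf_mul, leaf_pm]
      exact mul_le_of_le_one_right (by positivity) hpm
    refine (sum_le_sum fun i _ => h2 i).trans (le_of_eq ?_)
    rw [sum_const, card_univ, Fintype.card_fin, nsmul_eq_mul]
  · rw [sum_const, nsmul_eq_mul, hPc]

end Pool.Agent.Q126.LP
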