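import Pool.Agent.Q126.LP.Main
import Pool.Agent.Q126.BD.Main

/-!
Locally private learners of DNF formulas: typical batches.
-/

set_option autoImplicit false

namespace Pool.Agent.Q126.LP

open Finset Pool.Agent.TH661.LPX Pool.Agent.Y636.CL Pool.Agent.Q126.BL Pool.Agent.Q126.BD

variable {n t j k : ℕ}

open Classical in
/-- The inequality for functions with bounded ratios on the typical batches. -/
theorem typ_priv {ρ ε : ℝ} (h0 : 0 < ρ) (h1 : ρ ≤ 1) (hε : 0 ≤ ε) (ι : Fin j → Fin n) (τ : ℕ)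
    (SS : Finset (Finset (Fin n))) (hne : SS.Nonempty) (hSS : ∀ S ∈ SS, S.card = k)
    (hι : ∀ S ∈ SS, ∀ h, ι h ∉ S)
    (hL : (2 ^ j * 2 ^ τ) ^ 2 * (ρ⁻¹ ^ k / SS.card) ≤ 1) (G : (Fin t → Ex n) → ℝ)
    (hG0 : ∀ e, 0 ≤ G e) (hG : ∀ e e', G e ≤ Real.exp ε * G e') :
    ∑ S ∈ Fintype.piFinset (fun _ : Fin j → Bool => SS),
        (av fun z : Bi n t → Bool => (if Typ ι τ (fun i => (tb n t z i).1) then G (tb n t z) else 0)
          * ll (tgA ι S) (tb n t z)) ^ 2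
      ≤ 4 * (2 ^ j * 2 ^ τ) ^ 2 * (ρ⁻¹ ^ k / SS.card) *
        (SS.card : ℝ) ^ (2 ^ j) * (Real.exp (2 * ρ * ε) *
        (av fun z : Bi n t → Bool =>
          if Typ ι τ (fun i => (tb n t z i).1) then G (tb n t z) else 0) ^ 2) := by
  have hcL : Fintype.card (Fin j → Bool) = 2 ^ j := by
    rw [Fintype.card_fun, Fintype.card_fin, Fintype.card_bool]
  have hcLR : ((Fintype.card (Fin j → Bool) : ℕ) : ℝ) = 2 ^ j := by
    rw [hcL]; push_cast; rfl
  have hSp : (0 : ℝ) < SS.card := by exact_mod_cast hne.card_pos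
  obtain ⟨K, hK⟩ : ∃ K : ℝ, K = 4 * (2 ^ j * 2 ^ τ) ^ 2 * (ρ⁻¹ ^ k / SS.card) *
        (SS.card : ℝ) ^ (2 ^ j) := ⟨_, rfl⟩
  have hK0 : 0 ≤ K := by rw [hK]; positivity
  rw [← hK]
  obtain ⟨Ω, hΩ⟩ : ∃ Ω : ℝ, Ω = Fintype.card (Bi n t → Bool) := ⟨_, rfl⟩
  have hΩp : 0 < Ω := by rw [hΩ]; exact_mod_cast Fintype.card_pos
  obtain ⟨FG, hFG⟩ : ∃ FG : (Bi n t → Bool) → ℝ, FG = fun z =>
    if Typ ι τ (fun i => (tb n t z i).1) then G (tb n t z) else 0 := ⟨_, rfl⟩
  have hFG' : ∀ z : Bi n t → Bool,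
    (if Typ ι τ (fun i => (tb n t z i).1) then G (tb n t z) else 0) = FG z := fun z => by rw [hFG]
  simp only [hFG']
  -- the fibres
  obtain ⟨F, hF⟩ : ∃ F : (Bi n t → Bool) → (Bi n t → Bool) → ℝ,
    F = fun ω' ω => FG (mix (EA ι) ω' ω) := ⟨_, rfl⟩
  have htyp_iff : ∀ ω' ω, Typ ι τ (fun i => (tb n t (mix (EA ι) ω' ω) i).1)
      ↔ ∀ a, (univ.filter fun i => al ι ω' i = a).card ≤ τ := by
    intro ω' ω
    unfold Typ
    refine forall_congr' fun a => ?_
    simp only [ad_mix]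
  have hFG0 : ∀ z, 0 ≤ FG z := by
    intro z
    rw [hFG]
    simp only
    split_ifs
    · exact hG0 _
    · exact le_rfl
  have hF0 : ∀ ω' ω, 0 ≤ F ω' ω := by
    intro ω' ω
    rw [hF]
    exact hFG0 _
  have hms : ∀ S ∈ Fintype.piFinset (fun _ : Fin j → Bool => SS),
      (av fun z : Bi n t → Bool => FG z * ll (tgA ι S) (tb n t z))
        = av fun ω' => av fun ω => F ω' ω * psiA (al ι ω') S ω := by
    intro S hS
    rw [av_mix (EA ι)]
    refine av_congr fun ω' => av_congr fun ω => ?_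
    rw [ll_mix ι S (fun a h => hι _ (Fintype.mem_piFinset.1 hS a) h), hF]
  have hfib : ∀ ω', ∑ S ∈ Fintype.piFinset (fun _ : Fin j → Bool => SS),
      (av fun ω => F ω' ω * psiA (al ι ω') S ω) ^ 2
        ≤ K * (av (F ω') ^ 2 * Real.exp (2 * ρ * ε)) := by
    intro ω'
    by_cases htyp : ∀ a, (univ.filter fun i => al ι ω' i = a).card ≤ τ
    · have h2 := fibre_le h0 h1 (al ι ω') SS hne hSS τ htyp (by rw [hcLR]; exact hL) (F ω')
      rw [hcLR, hcL, ← hK] at h2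
      refine h2.trans (mul_le_mul_of_nonneg_left ?_ hK0)
      have hval : ∀ ω, F ω' ω = G (tb n t (mix (EA ι) ω' ω)) := by
        intro ω
        rw [hF, hFG]
        simp only
        rw [if_pos ((htyp_iff ω' ω).2 htyp)]
      refine nn_priv h0 hε (hF0 ω') fun z z' => ?_
      rw [hval, hval]
      exact hG _ _
    · have hz : ∀ ω, F ω' ω = 0 := by
        intro ω
        rw [hF, hFG]
        simp only
        rw [if_neg]
        rw [htyp_iff]
        exact htyp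
      have h2 : ∀ S ∈ Fintype.piFinset (fun _ : Fin j → Bool => SS),
          (av fun ω => F ω' ω * psiA (al ι ω') S ω) ^ 2 = 0 := by
        intro S _
        have : ∀ ω, F ω' ω * psiA (al ι ω') S ω = 0 := fun ω => by rw [hz, zero_mul]
        rw [av_congr this, av_const]
        norm_num
      rw [sum_congr rfl h2, sum_const_zero]
      positivity
  -- Minkowski
  obtain ⟨K', hK'⟩ : ∃ K' : ℝ, K' = Real.sqrt (K * Real.exp (2 * ρ * ε)) := ⟨_, rfl⟩
  have hK'0 : 0 ≤ K' := by rw [hK']; exact Real.sqrt_nonneg _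
  have hK'2 : K' ^ 2 = K * Real.exp (2 * ρ * ε) := by
    rw [hK', Real.sq_sqrt (mul_nonneg hK0 (Real.exp_pos _).le)]
  have hmink := mink (univ : Finset (Bi n t → Bool))
    (Fintype.piFinset (fun _ : Fin j → Bool => SS))
    (fun ω' S => (av fun ω => F ω' ω * psiA (al ι ω') S ω) / Ω)
    (fun ω' => K' * av (F ω') / Ω)
    (fun ω' _ => div_nonneg (mul_nonneg hK'0 (av_nonneg (hF0 ω'))) hΩp.le) (by
      intro ω' _
      simp only [div_pow]
      rw [← sum_div, mul_pow, hK'2]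
      refine div_le_div_of_nonneg_right ((hfib ω').trans (le_of_eq ?_)) (by positivity)
      ring)
  have e1 : ∀ S ∈ Fintype.piFinset (fun _ : Fin j → Bool => SS),
      (av fun z : Bi n t → Bool => FG z * ll (tgA ι S) (tb n t z)) ^ 2
        = (∑ ω' : Bi n t → Bool, (av fun ω => F ω' ω * psiA (al ι ω') S ω) / Ω) ^ 2 := by
    intro S hS
    rw [hms S hS, ← sum_div, hΩ]
    rfl
  rw [sum_congr rfl e1]
  refine hmink.trans (le_of_eq ?_)
  have h3 : av (fun ω' => av (F ω')) = av FG := by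
    rw [hF]
    exact (av_mix (EA ι) FG).symm
  have e3 : ∑ ω' : Bi n t → Bool, K' * av (F ω') / Ω = K' * av FG := by
    rw [← h3, ← sum_div, ← mul_sum, hΩ, mul_div_assoc]
    rfl
  rw [e3, mul_pow, hK'2]
  ring

variable {Ω : Type} [Fintype Ω]

/-- The weight of a typical batch with a private random element. -/
noncomputable def pwt (ι : Fin j → Fin n) (τ : ℕ) (Ω : Type) [Fintype Ω]
    (p : (Fin t → Ex n) × Ω) : ℝ := wt ι τ p.1 / Fintype.card Ω

theorem pwt_nonneg (ι : Fin j → Fin n) (τ : ℕ) (p : (Fin t → Ex n) × Ω) : 0 ≤ pwt ι τ Ω p :=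
  div_nonneg (wt_nonneg ι τ _) (Nat.cast_nonneg _)

theorem sum_wt (ι : Fin j → Fin n) (τ : ℕ) (ψ : (Fin t → Ex n) → ℝ) :
    ∑ e, wt ι τ e * ψ e = av fun z : Bi n t → Bool => FA ι τ univ z * ψ (tb n t z) := by
  have h := ms_wt ι τ (univ : Finset (Fin t → Ex n)) ψ
  unfold ms at h
  exact h

theorem ms_pwt (ι : Fin j → Fin n) (τ : ℕ) (A : Finset ((Fin t → Ex n) × Ω))
    (φ : (Fin t → Ex n) → ℝ) :
    ms (fun p => pwt ι τ Ω p * φ p.1) A
      = av fun z : Bi n t → Bool =>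
        FA ι τ univ z * (gc A (tb n t z) / Fintype.card Ω * φ (tb n t z)) := by
  rw [← sum_wt ι τ fun e => gc A e / Fintype.card Ω * φ e]
  exact ms_wp (wt ι τ) φ A

theorem ms_pwt_one (ι : Fin j → Fin n) (τ : ℕ) (A : Finset ((Fin t → Ex n) × Ω)) :
    ms (pwt ι τ Ω) A = av fun z : Bi n t → Bool =>
        FA ι τ univ z * (gc A (tb n t z) / Fintype.card Ω) := by
  have h := ms_pwt ι τ A fun _ => 1
  simp only [mul_one] at h
  exact h

theorem ms_pwt_univ [Nonempty Ω] (ι : Fin j → Fin n) (τ : ℕ) :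
    ms (pwt ι τ Ω) (univ : Finset ((Fin t → Ex n) × Ω))
      = ms (wt ι τ) (univ : Finset (Fin t → Ex n)) := by
  rw [ms_pwt_one, ms_wt_one]
  have hc : (Fintype.card Ω : ℝ) ≠ 0 := by exact_mod_cast Fintype.card_ne_zero
  refine av_congr fun z => ?_
  rw [gc_univ, div_self hc, mul_one]

theorem bt_pwt_univ [Nonempty Ω] (ι : Fin j → Fin n) (τ : ℕ)
    (S : (Fin j → Bool) → Finset (Fin n)) (hS : ∀ a, ∀ h, ι h ∉ S a) :
    bt (pwt ι τ Ω) (pl (tgA ι S)) (univ : Finset ((Fin t → Ex n) × Ω)) = 0 := by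
  have hc : (Fintype.card Ω : ℝ) ≠ 0 := by exact_mod_cast Fintype.card_ne_zero
  have h1 := bt_wt_univ (t := t) ι τ S hS
  unfold bt at h1 ⊢
  rw [ms_pwt_univ]
  have h2 : ms (fun p => pwt ι τ Ω p * pl (tgA ι S) p) (univ : Finset ((Fin t → Ex n) × Ω))
      = ms (fun e => wt ι τ e * ll (tgA ι S) e) (univ : Finset (Fin t → Ex n)) := by
    have h3 := ms_pwt (Ω := Ω) ι τ univ (ll (m := n) (t := t) (tgA ι S))
    have h4 : ms (fun p => pwt ι τ Ω p * pl (tgA ι S) p) (univ : Finset ((Fin t → Ex n) × Ω))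
        = ms (fun p : (Fin t → Ex n) × Ω => pwt ι τ Ω p * (ll (tgA ι S)) p.1) univ := rfl
    rw [h4, h3, ms_wt]
    refine av_congr fun z => ?_
    rw [gc_univ, div_self hc, one_mul]
  rw [h2]
  exact h1

end Pool.Agent.Q126.LP
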