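import Pool.Agent.Y636.CL.JDefs

/-!
Locally private protocols whose parties hold a batch of labelled examples each: definitions.
-/

set_option autoImplicit false

namespace Pool.Agent.Q126.LP

open Finset Pool.Agent.W964.Wd Pool.Agent.Y636.CL

/-- The transcript: the bits that are written on the board. -/
def transcript {N : ℕ} {E H : Type} : Prot N E H → (Fin N → E) → List Bool
  | .out _, _ => []
  | .say i q l r, e => if q (e i) = true then true :: transcript r e else false :: transcript l e

/-- Local privacy (fully interactive, pure, with parameter `ε`). Party `j` holds the data `x j` and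
a private uniformly distributed element `u j` of `Ω`. If the data of one party are changed then the
probability of every transcript changes at most by the factor `exp ε`. -/
def LocallyPrivate {N : ℕ} {E Ω H : Type} [Fintype Ω] (ε : ℝ) (π : Prot N (E × Ω) H) : Prop :=
  ∀ (i : Fin N) (x x' : Fin N → E), (∀ j, j ≠ i → x j = x' j) → ∀ τ : List Bool,
    ((univ.filter fun u : Fin N → Ω => transcript π (fun j => (x j, u j)) = τ).card : ℝ) ≤
      Real.exp ε * ((univ.filter fun u : Fin N → Ω => transcript π (fun j => (x' j, u j)) = τ).card : ℝ)

open Classical in
/-- The probability, over `N * t` independent uniformly distributed points `X i j` and the private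
random elements `u i` of `Ω`, that `P` holds for the output of `A` on the `N` batches of the `t`
examples `(X i j, f (X i j))`, `j < t`, and the elements `u i`. -/
noncomputable def privProb {m t N : ℕ} {Ω H : Type} [Fintype Ω]
    (A : (Fin N → (Fin t → Ex m) × Ω) → H) (f : Hy m) (P : H → Prop) : ℝ :=
  ((univ.filter fun p : (Fin N → Fin t → Fin m → Bool) × (Fin N → Ω) =>
    P (A fun i => (fun j => (p.1 i j, f (p.1 i j)), p.2 i))).card : ℝ) /
      (((2 ^ m) ^ t) ^ N * (Fintype.card Ω : ℝ) ^ N)

/-- The average of `privProb` over a finite family of learners (public randomness). -/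
noncomputable def privProbR {m t N : ℕ} {R Ω H : Type} [Fintype R] [Fintype Ω]
    (A : R → (Fin N → (Fin t → Ex m) × Ω) → H) (f : Hy m) (P : H → Prop) : ℝ :=
  (∑ r, privProb (A r) f P) / Fintype.card R

end Pool.Agent.Q126.LP
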