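import Pool.Agent.Q126.LP.Priv

/-!
The lower bound for locally private learners that get the examples in batches.
-/

set_option autoImplicit false

namespace Pool.Agent.Q126.LP

open Finset Pool.Agent.W964.Wd Pool.Agent.Y636.CL Pool.Agent.Q126.BL Pool.Agent.TH661.LPX

/-- The norm of a function with bounded ratios. -/
theorem nn_priv {Z : Type*} [Fintype Z] [Nonempty Z] {ρ ε : ℝ} (h0 : 0 < ρ) (hε : 0 ≤ ε)
    {F : Z → ℝ} (hF0 : ∀ z, 0 ≤ F z) (hF : ∀ z z', F z ≤ Real.exp ε * F z') :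
    nn ρ F ≤ av F ^ 2 * Real.exp (2 * ρ * ε) := by
  have ha0 : 0 ≤ av F := av_nonneg hF0
  have hle : ∀ z, F z ≤ Real.exp ε * av F := by
    intro z
    rw [← av_mul_left]
    exact const_le_av fun z' => hF z z'
  have h2 : (av fun z => |F z| ^ (1 + ρ)) ≤ Real.exp (ε * ρ) * av F ^ (1 + ρ) := by
    have h3 : ∀ z, |F z| ^ (1 + ρ) ≤ (Real.exp ε * av F) ^ ρ * F z := by
      intro z
      rw [abs_of_nonneg (hF0 z), Real.rpow_add_of_nonneg (hF0 z) (by norm_num) h0.le,
        Real.rpow_one, mul_comm]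
      exact mul_le_mul_of_nonneg_right (Real.rpow_le_rpow (hF0 z) (hle z) h0.le) (hF0 z)
    refine (av_mono h3).trans (le_of_eq ?_)
    rw [av_mul_left, Real.mul_rpow (Real.exp_pos _).le ha0, ← Real.exp_mul,
      Real.rpow_add_of_nonneg ha0 (by norm_num) h0.le, Real.rpow_one]
    ring
  unfold nn
  have h4 : (0 : ℝ) ≤ 2 / (1 + ρ) := by positivity
  refine (Real.rpow_le_rpow (av_abs_nonneg ρ F) h2 h4).trans ?_
  rw [Real.mul_rpow (Real.exp_pos _).le (Real.rpow_nonneg ha0 _), ← Real.exp_mul,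
    ← Real.rpow_mul ha0]
  have h5 : (1 + ρ) * (2 / (1 + ρ)) = ((2 : ℕ) : ℝ) := by
    have : 1 + ρ ≠ 0 := by linarith
    field_simp
    norm_num
  rw [h5, Real.rpow_natCast, mul_comm]
  refine mul_le_mul_of_nonneg_left (Real.exp_le_exp.2 ?_) (by positivity)
  have h6 : 2 / (1 + ρ) ≤ 2 := by
    rw [div_le_iff₀ (by linarith)]
    linarith
  have h7 := mul_le_mul_of_nonneg_left h6 (by positivity : 0 ≤ ε * ρ)
  linarith

variable {m k t : ℕ} {Ω : Type} [Fintype Ω]

/-- The weight of a batch and a private random element. -/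
noncomputable def pw (m t : ℕ) (Ω : Type) [Fintype Ω] (p : (Fin t → Ex m) × Ω) : ℝ :=
  bw m t p.1 / Fintype.card Ω

/-- The likelihood ratio of a batch. -/
noncomputable def pl (f : Hy m) (p : (Fin t → Ex m) × Ω) : ℝ := ll f p.1

theorem pw_nonneg (p : (Fin t → Ex m) × Ω) : 0 ≤ pw m t Ω p :=
  div_nonneg (bw_nonneg _) (Nat.cast_nonneg _)

omit [Fintype Ω] in
theorem pl_ge (f : Hy m) (p : (Fin t → Ex m) × Ω) : -1 ≤ pl f p := ll_ge f p.1

theorem sum_bw (ψ : (Fin t → Ex m) → ℝ) :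
    ∑ e, bw m t e * ψ e = av fun z : Bi m t → Bool => ψ (tb m t z) := by
  have h := ms_bw univ ψ
  unfold ms at h
  rw [h]
  refine av_congr fun z => ?_
  rw [if_pos (mem_univ _), one_mul]

theorem ms_pw (A : Finset ((Fin t → Ex m) × Ω)) (φ : (Fin t → Ex m) → ℝ) :
    ms (fun p => pw m t Ω p * φ p.1) A
      = av fun z : Bi m t → Bool => gc A (tb m t z) / Fintype.card Ω * φ (tb m t z) := by
  rw [← sum_bw fun e => gc A e / Fintype.card Ω * φ e]
  exact ms_wp (bw m t) φ A

theorem ms_pw_one (A : Finset ((Fin t → Ex m) × Ω)) :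
    ms (pw m t Ω) A = av fun z : Bi m t → Bool => gc A (tb m t z) / Fintype.card Ω := by
  have h := ms_pw A fun _ => 1
  simp only [mul_one] at h
  exact h

theorem gc_univ (e : Fin t → Ex m) :
    gc (univ : Finset ((Fin t → Ex m) × Ω)) e = Fintype.card Ω := by
  unfold gc
  simp

theorem ms_pw_univ [Nonempty Ω] : ms (pw m t Ω) univ = 1 := by
  rw [ms_pw_one]
  have hc : (Fintype.card Ω : ℝ) ≠ 0 := by exact_mod_cast Fintype.card_ne_zero
  rw [av_congr fun z => by rw [gc_univ, div_self hc]]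
  exact av_const _

theorem bt_pl_univ [Nonempty Ω] (g : (Fin k → Bool) → Bool) (s : Fin k → Fin m) :
    bt (pw m t Ω) (pl (junta g s)) univ = 0 := by
  have hc : (Fintype.card Ω : ℝ) ≠ 0 := by exact_mod_cast Fintype.card_ne_zero
  have h1 := bt_ll_univ (t := t) g s
  unfold bt at h1 ⊢
  rw [ms_bw_univ, div_one] at h1
  rw [ms_pw_univ, div_one]
  have h2 := ms_pw (Ω := Ω) (m := m) (t := t) univ (ll (junta g s))
  have h3 := ms_bw (m := m) (t := t) univ (ll (junta g s))
  rw [h1] at h3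
  have h4 : ms (fun p => pw m t Ω p * pl (junta g s) p) univ
      = ms (fun p : (Fin t → Ex m) × Ω => pw m t Ω p * (ll (junta g s)) p.1) univ := rfl
  rw [h4, h2, h3]
  refine av_congr fun z => ?_
  rw [gc_univ, div_self hc, if_pos (mem_univ _)]

/-- The level inequality for the sides of private rectangles. -/
theorem priv_level {c : ℕ} {g : (Fin k → Bool) → Bool} (hg : Balanced c g) {ρ ε : ℝ} (h0 : 0 < ρ)
    (h1 : ρ ≤ 1) (hε : 0 ≤ ε) (hM : 2 ≤ ρ * (m / k : ℕ)) (A : Finset ((Fin t → Ex m) × Ω))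
    (hA : ∀ e e', (gc A e : ℝ) ≤ Real.exp ε * gc A e') :
    ∑ κ : Fin k → Fin (m / k), ms (fun p => pw m t Ω p * pl (junta g (pk κ)) p) A ^ 2
      ≤ (2 ^ t) ^ 2 * 2 ^ k * (2 * ((m / k : ℕ) : ℝ) ^ k * (1 / (ρ * (m / k : ℕ))) ^ (c + 1)
        * (ms (pw m t Ω) A ^ 2 * Real.exp (2 * ρ * ε))) := by
  have hMp : (0 : ℝ) < (m / k : ℕ) := by
    rcases Nat.eq_zero_or_pos (m / k) with h | h
    · rw [h] at hM; norm_num at hM
    · exact_mod_cast h
  have h2 := sum_pairing (F := fun z : Bi m t → Bool => (gc A (tb m t z) : ℝ) / Fintype.card Ω)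
    (col m t) h0 h1 hM (fun κ z => ll (junta g (pk κ)) (tb m t z))
    (fun κ z => abs_ll_le _ _) c (fun κ T h => supp_ll hg (pk κ) (pk_inj κ) T h)
  have h3 := nn_priv (F := fun z : Bi m t → Bool => (gc A (tb m t z) : ℝ) / Fintype.card Ω)
    h0 hε (fun z => by positivity) (fun z z' => by
      rw [← mul_div_assoc]
      exact div_le_div_of_nonneg_right (hA _ _) (Nat.cast_nonneg _))
  rw [← ms_pw_one] at h3
  have h4 : ∀ κ : Fin k → Fin (m / k),
      ms (fun p => pw m t Ω p * pl (junta g (pk κ)) p) A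
        = av fun z : Bi m t → Bool => (gc A (tb m t z) : ℝ) / Fintype.card Ω *
          ll (junta g (pk κ)) (tb m t z) := fun κ => ms_pw A (ll (junta g (pk κ)))
  rw [sum_congr rfl fun κ _ => by rw [h4 κ]]
  refine h2.trans ?_
  refine mul_le_mul_of_nonneg_left ?_ (by positivity)
  exact mul_le_mul_of_nonneg_left h3 (by positivity)

/-- The sum over the places of the squared biases of one side of a private rectangle. -/
theorem sum_bt_priv {N c : ℕ} {g : (Fin k → Bool) → Bool} (hg : Balanced c g) {ρ ε : ℝ}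
    (h0 : 0 < ρ) (h1 : ρ ≤ 1) (hε : 0 ≤ ε) (hM : 2 ≤ ρ * (m / k : ℕ))
    (U : Fin N → Finset ((Fin t → Ex m) × Ω)) (hU : Rect ε U) (j : Fin N) :
    ∑ κ : Fin k → Fin (m / k), pm (pw m t Ω) U * bt (pw m t Ω) (pl (junta g (pk κ))) (U j) ^ 2
      ≤ (2 ^ t) ^ 2 * 2 ^ k * (2 * ((m / k : ℕ) : ℝ) ^ k * (1 / (ρ * (m / k : ℕ))) ^ (c + 1)
        * Real.exp (2 * ρ * ε)) * pm (pw m t Ω) U := by
  have hMp : (0 : ℝ) < (m / k : ℕ) := by
    rcases Nat.eq_zero_or_pos (m / k) with h | h
    · rw [h] at hM; norm_num at hM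
    · exact_mod_cast h
  have hp := pm_nonneg (w := pw m t Ω) pw_nonneg U
  rcases hp.eq_or_lt with h | h
  · rw [← h]
    simp
  · have hms : ∀ i, ms (pw m t Ω) (U i) ≠ 0 := by
      intro i hi
      have : pm (pw m t Ω) U = 0 := by
        unfold pm
        exact prod_eq_zero (mem_univ i) hi
      rw [this] at h
      exact lt_irrefl _ h
    have hne : ∀ i, (U i).Nonempty := by
      intro i
      rw [nonempty_iff_ne_empty]
      intro he
      refine hms i ?_
      rw [he]
      unfold ms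
      exact sum_empty
    have hl := priv_level (t := t) hg h0 h1 hε hM (U j) (hU.side hne j)
    have hj : 0 < ms (pw m t Ω) (U j) :=
      lt_of_le_of_ne (ms_nonneg (w := pw m t Ω) pw_nonneg _) (hms j).symm
    have h2 : ∑ κ : Fin k → Fin (m / k),
          pm (pw m t Ω) U * bt (pw m t Ω) (pl (junta g (pk κ))) (U j) ^ 2
        = pm (pw m t Ω) U / ms (pw m t Ω) (U j) ^ 2 * ∑ κ : Fin k → Fin (m / k),
            ms (fun p => pw m t Ω p * pl (junta g (pk κ)) p) (U j) ^ 2 := by
      rw [mul_sum]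
      refine sum_congr rfl fun κ _ => ?_
      unfold bt
      field_simp
    rw [h2]
    refine (mul_le_mul_of_nonneg_left hl (by positivity)).trans (le_of_eq ?_)
    field_simp

/-- The success probability is a sum over the leaves of the protocol. -/
theorem privProb_eq [Nonempty Ω] {N : ℕ} {H : Type}
    (T : Prot N ((Fin t → Ex m) × Ω) H)
    (f : Hy m) (P : H → Prop) (good : H → ℝ)
    (hg : ∀ h, P h → good h = 1) (hg' : ∀ h, ¬ P h → good h = 0) :
    privProb T.run f P
      = leaf (fun h U => good h * pm (fun p => pw m t Ω p * (1 + pl f p)) U) T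
        fun _ => univ := by
  classical
  have hc : (Fintype.card Ω : ℝ) ≠ 0 := by exact_mod_cast Fintype.card_ne_zero
  rw [leaf_run]
  unfold privProb
  rw [← sum_boole, sum_div]
  refine sum_of_injOn (fun p i => (fun j => (p.1 i j, f (p.1 i j)), p.2 i)) ?_ ?_ ?_ ?_
  · intro p _ p' _ hpp
    refine Prod.ext ?_ ?_
    · funext i j
      have := congrFun (Prod.ext_iff.1 (congrFun hpp i)).1 j
      exact (Prod.ext_iff.1 this).1
    · funext i
      exact (Prod.ext_iff.1 (congrFun hpp i)).2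
  · intro p _
    simp
  · intro e _ he
    obtain ⟨i, j, hij⟩ : ∃ i j, ((e i).1 j).2 ≠ f ((e i).1 j).1 := by
      by_contra hcon
      push Not at hcon
      refine he ⟨(fun i j => ((e i).1 j).1, fun i => (e i).2), by simp, ?_⟩
      funext i
      refine Prod.ext ?_ rfl
      funext j
      exact Prod.ext rfl (hcon i j).symm
    have h1 : pf f ((e i).1 j) = -1 := by
      unfold pf
      revert hij
      unfold Pool.Agent.TH661.LPX.sg
      cases ((e i).1 j).2 <;> cases f ((e i).1 j).1 <;> simp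
    have h2 : 1 + pl f (e i) = 0 := by
      unfold pl ll
      rw [prod_eq_zero (mem_univ j) (by rw [h1]; ring)]
      ring
    rw [prod_eq_zero (mem_univ i) (by rw [h2, mul_zero]), zero_mul]
  · intro p _
    have h1 : ∀ i, pw m t Ω (fun j => (p.1 i j, f (p.1 i j)), p.2 i) *
        (1 + pl f (fun j => (p.1 i j, f (p.1 i j)), p.2 i))
        = ((2 ^ m) ^ t * (Fintype.card Ω : ℝ))⁻¹ := by
      intro i
      have h2 : ∀ j, 1 + pf f (p.1 i j, f (p.1 i j)) = 2 := by
        intro j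
        have : pf f (p.1 i j, f (p.1 i j)) = 1 := by
          unfold pf
          exact Pool.Agent.TH661.LPX.sg_mul_self _
        rw [this]
        norm_num
      have h3 : 1 + pl f ((fun j => (p.1 i j, f (p.1 i j)), p.2 i) : (Fin t → Ex m) × Ω)
          = 2 ^ t := by
        unfold pl ll
        rw [prod_congr rfl fun j _ => h2 j, prod_const, card_univ, Fintype.card_fin]
        ring
      rw [h3]
      unfold pw bw
      rw [mul_pow]
      have h4 : ((2 : ℝ) ^ m) ^ t ≠ 0 := by positivity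
      have h5 : (2 : ℝ) ^ t ≠ 0 := by positivity
      field_simp
    rw [prod_congr rfl fun i _ => h1 i, prod_const, card_univ, Fintype.card_fin]
    by_cases hE : P (T.run fun i => (fun j => (p.1 i j, f (p.1 i j)), p.2 i))
    · rw [if_pos hE, hg _ hE, ← mul_pow]
      rw [inv_pow, div_eq_inv_mul]
    · rw [if_neg hE, hg' _ hE]
      simp

open Classical in
/-- The sum of the success probabilities over all places of the relevant variables. -/
theorem sum_privProb_le [Nonempty Ω] {N c : ℕ} {g : (Fin k → Bool) → Bool} (hg : Balanced c g)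
    (T : Prot N ((Fin t → Ex m) × Ω) (Finset (Fin m))) {ρ ε : ℝ} (hT : LocallyPrivate ε T)
    (h0 : 0 < ρ) (h1 : ρ ≤ 1) (hε : 0 ≤ ε) (hM : 2 ≤ ρ * (m / k : ℕ)) :
    ∑ κ : Fin k → Fin (m / k), privProb T.run (junta g (pk κ))
        (fun A => A.card ≤ k ∧ 0 < adv (junta g (pk κ)) A)
      ≤ Real.exp 1 * ((k.choose (c + 1) : ℝ) * ((m / k : ℕ) : ℝ) ^ (k - (c + 1)))
        + Real.exp 2 * (3 * (N * ((2 ^ t) ^ 2 * 2 ^ k *
          (2 * ((m / k : ℕ) : ℝ) ^ k * (1 / (ρ * (m / k : ℕ))) ^ (c + 1)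
            * Real.exp (2 * ρ * ε))))) := by
  have hMp : (0 : ℝ) < (m / k : ℕ) := by
    rcases Nat.eq_zero_or_pos (m / k) with h | h
    · rw [h] at hM; norm_num at hM
    · exact_mod_cast h
  let U : Fin N → Finset ((Fin t → Ex m) × Ω) := fun _ => univ
  have hz : ∀ κ : Fin k → Fin (m / k), zz (pw m t Ω) (pl (junta g (pk κ))) U = 0 := fun κ => by
    unfold zz
    exact sum_eq_zero fun i _ => bt_pl_univ g _
  have hpm : pm (pw m t Ω) U = 1 := by
    unfold pm
    exact prod_eq_one fun i _ => ms_pw_univ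
  have step1 : ∀ κ : Fin k → Fin (m / k), privProb T.run (junta g (pk κ))
        (fun A => A.card ≤ k ∧ 0 < adv (junta g (pk κ)) A)
      ≤ Real.exp 1 * leaf (fun A U =>
          (if A.card ≤ k ∧ 0 < adv (junta g (pk κ)) A then (1 : ℝ) else 0) * pm (pw m t Ω) U) T U
        + Real.exp 2 * (3 * ∑ j, leaf (fun _ U =>
          pm (pw m t Ω) U * bt (pw m t Ω) (pl (junta g (pk κ))) (U j) ^ 2) T U) := by
    intro κ
    rw [privProb_eq T (junta g (pk κ)) _
      (fun A => if A.card ≤ k ∧ 0 < adv (junta g (pk κ)) A then 1 else 0)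
      (fun h hE => if_pos hE) (fun h hE => if_neg hE)]
    have h2 := tilt_le' (w := pw m t Ω) (φ := pl (junta g (pk κ))) pw_nonneg (pl_ge _)
      (fun A => if A.card ≤ k ∧ 0 < adv (junta g (pk κ)) A then 1 else 0)
      (fun h => by split_ifs <;> norm_num) (fun h => by split_ifs <;> norm_num) T U
      (fun h => by rw [hz] at h; norm_num at h)
    refine h2.trans (le_of_eq ?_)
    congr 2
    exact leaf_vv pw_nonneg T U fun j => bt_pl_univ g _
  refine (sum_le_sum fun κ _ => step1 κ).trans ?_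
  rw [sum_add_distrib, ← mul_sum, ← mul_sum, ← mul_sum]
  refine add_le_add ?_ ?_
  · rw [← leaf_sum]
    have h2 : leaf (fun A U => ∑ κ : Fin k → Fin (m / k),
          (if A.card ≤ k ∧ 0 < adv (junta g (pk κ)) A then (1 : ℝ) else 0) * pm (pw m t Ω) U) T U
        ≤ leaf (fun _ U => ((k.choose (c + 1) : ℝ) * ((m / k : ℕ) : ℝ) ^ (k - (c + 1))) *
          pm (pw m t Ω) U) T U := by
      refine leaf_mono (fun A U => ?_) _ _
      rw [← sum_mul]
      exact mul_le_mul_of_nonneg_right (null_count hg A) (pm_nonneg pw_nonneg U)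
    rw [leaf_mul, leaf_pm, hpm, mul_one] at h2
    exact mul_le_mul_of_nonneg_left h2 (Real.exp_pos 1).le
  · refine mul_le_mul_of_nonneg_left (mul_le_mul_of_nonneg_left ?_ (by norm_num)) (by positivity)
    rw [sum_comm]
    have h2 : ∀ j : Fin N, ∑ κ : Fin k → Fin (m / k),
        leaf (fun _ U => pm (pw m t Ω) U * bt (pw m t Ω) (pl (junta g (pk κ))) (U j) ^ 2) T U
        ≤ (2 ^ t) ^ 2 * 2 ^ k *
          (2 * ((m / k : ℕ) : ℝ) ^ k * (1 / (ρ * (m / k : ℕ))) ^ (c + 1)
            * Real.exp (2 * ρ * ε)) := by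
      intro j
      rw [← leaf_sum]
      have h3 := leaf_priv (ε := ε)
        (G := fun U => ∑ κ : Fin k → Fin (m / k),
          pm (pw m t Ω) U * bt (pw m t Ω) (pl (junta g (pk κ))) (U j) ^ 2)
        (G' := fun U => (2 ^ t) ^ 2 * 2 ^ k * (2 * ((m / k : ℕ) : ℝ) ^ k *
          (1 / (ρ * (m / k : ℕ))) ^ (c + 1) * Real.exp (2 * ρ * ε)) * pm (pw m t Ω) U)
        (fun U hU => sum_bt_priv hg h0 h1 hε hM U hU j) T U hT.privS
      refine h3.trans ?_
      rw [leaf_mul, leaf_pm, hpm, mul_one]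
    refine (sum_le_sum fun j _ => h2 j).trans (le_of_eq ?_)
    rw [sum_const, card_univ, Fintype.card_fin, nsmul_eq_mul]

end Pool.Agent.Q126.LP
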