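import Pool.Agent.Q126.BL.Main
import Pool.Agent.Q126.LP.Defs

/-!
The rectangles at the leaves of a locally private protocol.
-/

set_option autoImplicit false

namespace Pool.Agent.Q126.LP

open Finset Pool.Agent.Y636.CL

variable {N : ℕ} {E Ω H : Type} [Fintype Ω]

open Classical in
/-- The number of random elements which put the data into the set. -/
noncomputable def gc (A : Finset (E × Ω)) (e : E) : ℕ := (univ.filter fun u : Ω => (e, u) ∈ A).card

open Classical in
/-- The number of random elements which give a transcript and put the data into a rectangle. -/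
noncomputable def cnt (T : Prot N (E × Ω) H) (S : Fin N → Finset (E × Ω)) (x : Fin N → E)
    (τ : List Bool) : ℕ :=
  (univ.filter fun u : Fin N → Ω => (∀ j, (x j, u j) ∈ S j) ∧ transcript T (fun j => (x j, u j)) = τ).card

/-- Privacy on a rectangle. -/
def PrivS (ε : ℝ) (T : Prot N (E × Ω) H) (S : Fin N → Finset (E × Ω)) : Prop :=
  ∀ (i : Fin N) (x x' : Fin N → E), (∀ j, j ≠ i → x j = x' j) → ∀ τ : List Bool,
    (cnt T S x τ : ℝ) ≤ Real.exp ε * (cnt T S x' τ : ℝ)

/-- A private rectangle. -/
def Rect (ε : ℝ) (S : Fin N → Finset (E × Ω)) : Prop :=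
  ∀ (i : Fin N) (x x' : Fin N → E), (∀ j, j ≠ i → x j = x' j) →
    ∏ j, (gc (S j) (x j) : ℝ) ≤ Real.exp ε * ∏ j, (gc (S j) (x' j) : ℝ)

theorem cnt_out (h : H) (S : Fin N → Finset (E × Ω)) (x : Fin N → E) :
    cnt (Prot.out h) S x [] = ∏ j, gc (S j) (x j) := by
  classical
  unfold cnt gc
  rw [← Fintype.card_piFinset]
  congr 1
  ext u
  rw [mem_filter, Fintype.mem_piFinset]
  simp only [mem_univ, true_and, transcript, and_true, mem_filter]

theorem cnt_say (i : Fin N) (q : E × Ω → Bool) (l r : Prot N (E × Ω) H)
    (S : Fin N → Finset (E × Ω)) (x : Fin N → E) (c : Bool) (τ : List Bool) :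
    cnt (Prot.say i q l r) S x (c :: τ)
      = cnt (if c = true then r else l) (splt S i q c) x τ := by
  classical
  unfold cnt
  congr 1
  ext u
  rw [mem_filter, mem_filter]
  simp only [mem_univ, true_and]
  have h1 : (∀ j, (x j, u j) ∈ splt S i q c j)
      ↔ (∀ j, (x j, u j) ∈ S j) ∧ q (x i, u i) = c := by
    unfold splt
    constructor
    · intro h
      have hi := h i
      rw [Function.update_self, mem_filter] at hi
      refine ⟨fun j => ?_, hi.2⟩
      by_cases hj : j = i
      · rw [hj]; exact hi.1
      · have := h j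
        rwa [Function.update_of_ne hj] at this
    · rintro ⟨h, hq⟩ j
      by_cases hj : j = i
      · rw [hj, Function.update_self, mem_filter]
        exact ⟨h i, hq⟩
      · rw [Function.update_of_ne hj]
        exact h j
  rw [h1]
  cases c
  · cases hq : q (x i, u i)
    · simp [transcript, hq]
    · simp [transcript, hq]
  · cases hq : q (x i, u i)
    · simp [transcript, hq]
    · simp [transcript, hq]

theorem PrivS.rect {ε : ℝ} {h : H} {S : Fin N → Finset (E × Ω)}
    (hp : PrivS ε (Prot.out h) S) : Rect ε S := by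
  intro i x x' hx
  have h1 := hp i x x' hx []
  rw [cnt_out, cnt_out] at h1
  push_cast at h1
  exact h1

theorem PrivS.child {ε : ℝ} {i : Fin N} {q : E × Ω → Bool} {l r : Prot N (E × Ω) H}
    {S : Fin N → Finset (E × Ω)} (hp : PrivS ε (Prot.say i q l r) S) (c : Bool) :
    PrivS ε (if c = true then r else l) (splt S i q c) := by
  intro j x x' hx τ
  have h1 := hp j x x' hx (c :: τ)
  rwa [cnt_say, cnt_say] at h1

/-- Comparison of leaf sums of a private protocol. -/
theorem leaf_priv {ε : ℝ} {G G' : (Fin N → Finset (E × Ω)) → ℝ}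
    (h : ∀ S, Rect ε S → G S ≤ G' S) (T : Prot N (E × Ω) H) (S : Fin N → Finset (E × Ω))
    (hp : PrivS ε T S) : leaf (fun _ U => G U) T S ≤ leaf (fun _ U => G' U) T S := by
  induction T generalizing S with
  | out a => exact h S hp.rect
  | say i q l r hl hr =>
    exact add_le_add (hl _ (by simpa using hp.child false)) (hr _ (by simpa using hp.child true))

theorem LocallyPrivate.privS [Fintype E] {ε : ℝ} {T : Prot N (E × Ω) H}
    (h : LocallyPrivate ε T) : PrivS ε T (fun _ => univ) := by
  classical
  intro i x x' hx τ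
  have h1 := h i x x' hx τ
  have h2 : ∀ y : Fin N → E, cnt T (fun _ => univ) y τ
      = (univ.filter fun u : Fin N → Ω => transcript T (fun j => (y j, u j)) = τ).card := by
    intro y
    unfold cnt
    congr 1
    ext u
    simp
  rw [h2, h2]
  exact h1

/-- The sides of a private rectangle are private, if none of them is empty. -/
theorem Rect.side {ε : ℝ} {S : Fin N → Finset (E × Ω)} (h : Rect ε S)
    (hne : ∀ j, (S j).Nonempty) (i : Fin N) (e e' : E) :
    (gc (S i) e : ℝ) ≤ Real.exp ε * gc (S i) e' := by
  classical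
  choose p hp using hne
  let x : Fin N → E := fun j => (p j).1
  have h1 := h i (Function.update x i e) (Function.update x i e') (fun j hj => by
    rw [Function.update_of_ne hj, Function.update_of_ne hj])
  have h2 : ∀ a : E, ∏ j, (gc (S j) (Function.update x i a j) : ℝ)
      = gc (S i) a * ∏ j ∈ univ.erase i, (gc (S j) (x j) : ℝ) := by
    intro a
    rw [← mul_prod_erase univ _ (mem_univ i), Function.update_self]
    congr 1
    refine prod_congr rfl fun j hj => ?_
    rw [Function.update_of_ne (ne_of_mem_erase hj)]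
  rw [h2, h2] at h1
  have h3 : 0 < ∏ j ∈ univ.erase i, (gc (S j) (x j) : ℝ) := by
    refine prod_pos fun j _ => ?_
    have : 0 < gc (S j) (x j) := by
      unfold gc
      rw [card_pos]
      exact ⟨(p j).2, by rw [mem_filter]; exact ⟨mem_univ _, hp j⟩⟩
    exact_mod_cast this
  rw [← mul_assoc] at h1
  exact le_of_mul_le_mul_right h1 h3

/-- The mass of a set in the presence of private random elements. -/
theorem ms_wp [Fintype E] (w φ : E → ℝ) (A : Finset (E × Ω)) :
    ms (fun p => w p.1 / Fintype.card Ω * φ p.1) A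
      = ∑ e, w e * (gc A e / Fintype.card Ω * φ e) := by
  classical
  unfold ms gc
  have h1 : ∑ p ∈ A, w p.1 / Fintype.card Ω * φ p.1
      = ∑ p : E × Ω, if p ∈ A then w p.1 / Fintype.card Ω * φ p.1 else 0 := by
    rw [← sum_filter]
    congr 1
    ext p
    simp
  rw [h1, Fintype.sum_prod_type]
  refine sum_congr rfl fun e _ => ?_
  rw [← sum_filter]
  simp only [sum_const, nsmul_eq_mul]
  ring

end Pool.Agent.Q126.LP
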